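import Pool.Agent.Lib.H8.CP.Words

/-!
# The asymptotic statement
-/

open MeasureTheory unitInterval Filter Asymptotics
open scoped ENNReal Topology

namespace Pool.Agent.Lib.H8.CP

theorem limit_aux {x : ℕ → ℝ} {D ρ : ℝ} (hρ1 : ρ < 1) {J0 : ℕ}
    (hx : ∀ j, J0 ≤ j → |x (j + 1) - x j| ≤ D * ρ ^ j) :
    ∃ l D' : ℝ, ∀ j, J0 ≤ j → |x j - l| ≤ D' * ρ ^ (j - J0) := by
  set y : ℕ → ℝ := fun j => x (J0 + j) with hy
  have h1 : ∀ j, dist (y j) (y (j + 1)) ≤ (D * ρ ^ J0) * ρ ^ j := by
    intro j
    rw [Real.dist_eq, abs_sub_comm]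
    have := hx (J0 + j) (by omega)
    simp only [hy]
    rw [show J0 + (j + 1) = J0 + j + 1 by ring, mul_assoc, ← pow_add]
    exact this
  obtain ⟨l, hl⟩ := cauchySeq_tendsto_of_complete (cauchySeq_of_le_geometric ρ _ hρ1 h1)
  refine ⟨l, D * ρ ^ J0 / (1 - ρ), fun j hj => ?_⟩
  have h2 := dist_le_of_le_geometric_of_tendsto ρ _ hρ1 h1 hl (j - J0)
  rw [Real.dist_eq] at h2
  simp only [hy] at h2
  rw [show J0 + (j - J0) = j by omega] at h2
  rw [div_mul_eq_mul_div]
  exact h2

variable {K : ℕ} (π : Equiv.Perm (Fin (K + 1)))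

theorem Phi_mono (S : Set ℕ) {n : ℕ} (hn : K ≤ n) {f g : (Fin K → I) → ℝ≥0∞}
    (h : ∀ y, f y ≤ g y) : Phi π S hn f ≤ Phi π S hn g :=
  lintegral_mono (fun _ => h _)

theorem Phi_const_mul (S : Set ℕ) {n : ℕ} (hn : K ≤ n) {f : (Fin K → I) → ℝ≥0∞}
    (hf : Measurable f) (c : ℝ≥0∞) : Phi π S hn (fun y => c * f y) = c * Phi π S hn f := by
  unfold Phi
  rw [lintegral_const_mul c (f := fun x => f (lastK hn x)) (hf.comp (measurable_lastK hn))]

theorem Phi_h_ne_zero (hK : 1 ≤ K) (S : Set ℕ) {n : ℕ} (hn : K ≤ n) (h0 : volume (Q π S n) ≠ 0)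
    (j : ℕ) : Phi π S hn (h π j) ≠ 0 := by
  unfold Phi
  have hm : Measurable (fun x : Fin n → I => h π j (lastK hn x)) :=
    (measurable_h π j).comp (measurable_lastK hn)
  have hpos : 0 < ∫⁻ x in Q π S n, h π j (lastK hn x) := by
    rw [setLIntegral_pos_iff hm]
    have h2 : volume (Function.support (fun x : Fin n → I => h π j (lastK hn x)) ∩ Q π S n) =
        volume (Q π S n) := by
      apply measure_congr
      -- the last letter is almost surely in (0,1)
      have key : ∀ c : I, ∀ᵐ x : Fin n → I, x ⟨n - 1, by omega⟩ ≠ c := by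
        intro c
        have h1 : ∀ᵐ t : I, t ≠ c := by rw [ae_iff]; simp
        exact (measurePreserving_eval (fun _ : Fin n => (volume : Measure I))
          ⟨n - 1, by omega⟩).quasiMeasurePreserving.ae h1
      filter_upwards [key 0, key 1] with x hx0 hx1
      apply propext
      constructor
      · intro h3; exact h3.2
      · intro h3
        refine ⟨?_, h3⟩
        rw [Function.mem_support]
        have e : lastK hn x ⟨K - 1, by omega⟩ = x ⟨n - 1, by omega⟩ := by
          unfold lastK
          congr 1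
          ext
          simp only
          omega
        apply h_pos π hK
        · rw [e]; exact lt_of_le_of_ne unitInterval.nonneg' hx0.symm
        · rw [e]; exact lt_of_le_of_ne unitInterval.le_one' hx1
    rw [h2]
    exact pos_iff_ne_zero.mpr h0
  exact hpos.ne'

theorem volume_Q_empty_ne_zero (hK : 1 ≤ K) (n : ℕ) : volume (Q π ∅ n) ≠ 0 := by
  have huniv : ∀ m, m ≤ K → Q π ∅ m = Set.univ := by
    intro m hm
    ext x
    simp only [Q, Set.mem_ofPred_eq, Set.mem_univ, iff_true, Set.mem_empty_iff_false, iff_false]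
    rintro i ⟨h1, _⟩
    omega
  rcases Nat.lt_or_ge n K with h | h
  · rw [huniv n h.le, measure_univ]; exact one_ne_zero
  · obtain ⟨j, rfl⟩ : ∃ j, n = K + j := ⟨n - K, by omega⟩
    rw [volume_Q_add π ∅ (le_refl K) (by simp) j]
    apply Phi_h_ne_zero π hK
    rw [huniv K le_rfl, measure_univ]
    exact one_ne_zero

theorem cnt_empty_pos (hK : 1 ≤ K) (n : ℕ) : (0 : ℝ) < cnt π ∅ n := by
  rw [cnt_eq]
  have h1 : 0 < (volume (Q π ∅ n)).toReal :=
    ENNReal.toReal_pos (volume_Q_empty_ne_zero π hK n) (measure_ne_top _ _)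
  positivity

/-- The main asymptotic statement, for the patterns of the two basic cases. -/
theorem asym (hK : 2 ≤ K) (hπ : CaseA π ∨ CaseB π) (S : Set ℕ) (hS : S.Finite) :
    ∃ (c : ℝ) (ε : ℕ → ℝ) (ρ : ℝ), 0 < ρ ∧ ρ < 1 ∧ (ε =O[atTop] fun n : ℕ => ρ ^ n) ∧
      ∀ n, (cnt π S n : ℝ) = c * cnt π ∅ n * (1 + ε n) := by
  have hK1 : 1 ≤ K := by omega
  -- the case where `S` is empty
  rcases S.eq_empty_or_nonempty with rfl | hne
  · exact ⟨1, fun _ => 0, 1 / 2, by norm_num, by norm_num, isBigO_zero _ _, fun n => by simp⟩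
  -- maximum of `S`
  obtain ⟨M, hM, hmax⟩ := Set.exists_max_image S id hS hne
  simp only [id] at hmax
  set m := M + K + 1 with hm
  have hmK : K ≤ m := by omega
  have hSm : ∀ i ∈ S, i < m - K := fun i hi => by have := hmax i hi; omega
  -- small lengths
  have hsmall : ∀ n, n < m → cnt π S n = 0 := by
    intro n hn
    classical
    unfold cnt
    rw [Finset.card_eq_zero, Finset.filter_eq_empty_iff]
    intro w _ hw
    obtain ⟨h1, _⟩ := (hw M).mpr hM
    omega
  by_cases h0 : volume (Q π S m) = 0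
  · -- the count vanishes identically
    have hzero : ∀ n, cnt π S n = 0 := by
      intro n
      rcases Nat.lt_or_ge n m with h | h
      · exact hsmall n h
      · obtain ⟨j, rfl⟩ : ∃ j, n = m + j := ⟨n - m, by omega⟩
        have h1 : volume (Q π S (m + j)) = 0 := by
          rw [volume_Q_add π S hmK hSm j]
          have h2 := Phi_mono π S hmK (fun y => h_le_one π j y)
          rw [← volume_Q_eq π S hmK, h0] at h2
          exact le_antisymm h2 bot_le
        have h3 := cnt_eq π S (m + j)
        rw [h1] at h3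
        simpa using h3
    exact ⟨0, fun _ => 0, 1 / 2, by norm_num, by norm_num, isBigO_zero _ _, fun n => by
      simp [hzero n]⟩
  · obtain ⟨ρ, C, α, hρ0, hρ1, hα, hC, J0, hJ⟩ := ratio_bounds π hK hπ
    set r : ℕ → ℝ := fun j => (volume (Q π S (m + j))).toReal with hr
    set q : ℕ → ℝ := fun j => (volume (Q π ∅ (m + j))).toReal with hq
    have hrpos : ∀ j, 0 < r j := by
      intro j
      apply ENNReal.toReal_pos _ (measure_ne_top _ _)
      rw [volume_Q_add π S hmK hSm j]
      exact Phi_h_ne_zero π hK1 S hmK h0 j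
    have hqpos : ∀ j, 0 < q j := fun j =>
      ENNReal.toReal_pos (volume_Q_empty_ne_zero π hK1 _) (measure_ne_top _ _)
    -- ratio bounds
    have hgen : ∀ (S' : Set ℕ), (∀ i ∈ S', i < m - K) → ∀ (j : ℕ) (a b : ℝ), 0 ≤ a → 0 ≤ b →
        Valid π j a b →
        a * (volume (Q π S' (m + j))).toReal ≤ (volume (Q π S' (m + (j + 1)))).toReal ∧
        (volume (Q π S' (m + (j + 1)))).toReal ≤ b * (volume (Q π S' (m + j))).toReal := by
      intro S' hS' j a b ha hb hv
      have e1 := volume_Q_add π S' hmK hS' j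
      have e2 := volume_Q_add π S' hmK hS' (j + 1)
      have k1 : ENNReal.ofReal a * volume (Q π S' (m + j)) ≤ volume (Q π S' (m + (j + 1))) := by
        rw [e1, e2, ← Phi_const_mul π S' hmK (measurable_h π j)]
        exact Phi_mono π S' hmK (fun y => (hv y).1)
      have k2 : volume (Q π S' (m + (j + 1))) ≤ ENNReal.ofReal b * volume (Q π S' (m + j)) := by
        rw [e1, e2, ← Phi_const_mul π S' hmK (measurable_h π j)]
        exact Phi_mono π S' hmK (fun y => (hv y).2)
      constructor
      · have := ENNReal.toReal_mono (measure_ne_top _ _) k1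
        rwa [ENNReal.toReal_mul, ENNReal.toReal_ofReal ha] at this
      · have := ENNReal.toReal_mono (ENNReal.mul_ne_top ENNReal.ofReal_ne_top
          (measure_ne_top _ _)) k2
        rwa [ENNReal.toReal_mul, ENNReal.toReal_ofReal hb] at this
    set x : ℕ → ℝ := fun j => Real.log (r j / q j) with hx
    have hxstep : ∀ j, J0 ≤ j → |x (j + 1) - x j| ≤ (C / α) * ρ ^ j := by
      intro j hj
      obtain ⟨a, b, hαa, hab, hba, hv⟩ := hJ j hj
      have ha : 0 < a := lt_of_lt_of_le hα hαa
      have hb : 0 < b := lt_of_lt_of_le ha hab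
      obtain ⟨r1, r2⟩ := hgen S hSm j a b ha.le hb.le hv
      obtain ⟨q1, q2⟩ := hgen ∅ (by simp) j a b ha.le hb.le hv
      have hr1 : a * r j ≤ r (j + 1) := r1
      have hr2 : r (j + 1) ≤ b * r j := r2
      have hq1 : a * q j ≤ q (j + 1) := q1
      have hq2 : q (j + 1) ≤ b * q j := q2
      have e : x (j + 1) - x j = Real.log (r (j + 1) / r j) - Real.log (q (j + 1) / q j) := by
        simp only [hx]
        rw [Real.log_div (hrpos _).ne' (hqpos _).ne', Real.log_div (hrpos _).ne' (hqpos _).ne',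
          Real.log_div (hrpos _).ne' (hrpos _).ne', Real.log_div (hqpos _).ne' (hqpos _).ne']
        ring
      have l1 : Real.log a ≤ Real.log (r (j + 1) / r j) :=
        Real.log_le_log ha (by rw [le_div_iff₀ (hrpos j)]; exact hr1)
      have l2 : Real.log (r (j + 1) / r j) ≤ Real.log b :=
        Real.log_le_log (div_pos (hrpos _) (hrpos _)) (by rw [div_le_iff₀ (hrpos j)]; exact hr2)
      have l3 : Real.log a ≤ Real.log (q (j + 1) / q j) :=
        Real.log_le_log ha (by rw [le_div_iff₀ (hqpos j)]; exact hq1)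
      have l4 : Real.log (q (j + 1) / q j) ≤ Real.log b :=
        Real.log_le_log (div_pos (hqpos _) (hqpos _)) (by rw [div_le_iff₀ (hqpos j)]; exact hq2)
      have l5 : Real.log b - Real.log a ≤ (b - a) / α := by
        rw [← Real.log_div hb.ne' ha.ne']
        have h1 := Real.log_le_sub_one_of_pos (div_pos hb ha)
        have h2 : b / a - 1 = (b - a) / a := by field_simp
        rw [h2] at h1
        refine h1.trans ?_
        apply div_le_div_of_nonneg_left _ hα hαa
        linarith
      have l6 : (b - a) / α ≤ (C / α) * ρ ^ j := by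
        rw [div_mul_eq_mul_div]
        gcongr
      rw [e, abs_le]
      constructor <;> linarith
    obtain ⟨l, D', hl⟩ := limit_aux hρ1 hxstep
    refine ⟨Real.exp l, fun n => (cnt π S n : ℝ) / (Real.exp l * cnt π ∅ n) - 1, ρ, hρ0, hρ1, ?_, ?_⟩
    · -- the error term
      have hD' : 0 ≤ D' := by
        have h1 := (abs_nonneg _).trans (hl J0 le_rfl)
        simpa using h1
      -- eventually the exponent is small
      have htend : Tendsto (fun n : ℕ => D' * ρ ^ (n - m - J0)) atTop (𝓝 0) := by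
        have h1 : Tendsto (fun n : ℕ => n - m - J0) atTop atTop := by
          have e1 : (fun n : ℕ => n - m - J0) = fun n => n - (m + J0) := by
            funext n; omega
          rw [e1]
          exact tendsto_sub_atTop_nat (m + J0)
        have h2 := (tendsto_pow_atTop_nhds_zero_of_lt_one hρ0.le hρ1).comp h1
        have h3 := h2.const_mul D'
        simpa using h3
      have hev : ∀ᶠ n : ℕ in atTop, D' * ρ ^ (n - m - J0) ≤ 1 :=
        htend.eventually (ge_mem_nhds (by norm_num))
      apply IsBigO.of_bound (2 * D' * (ρ ^ (m + J0))⁻¹)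
      filter_upwards [hev, eventually_ge_atTop (m + J0)] with n hn1 hn2
      obtain ⟨j, rfl⟩ : ∃ j, n = m + j := ⟨n - m, by omega⟩
      have hj : J0 ≤ j := by omega
      have e0 : m + j - m - J0 = j - J0 := by omega
      rw [e0] at hn1
      have hlj := hl j hj
      have e1 : (cnt π S (m + j) : ℝ) / (Real.exp l * cnt π ∅ (m + j)) = Real.exp (x j - l) := by
        rw [cnt_eq, cnt_eq, Real.exp_sub, hx]
        simp only
        rw [Real.exp_log (div_pos (hrpos j) (hqpos j))]
        have hfac : ((m + j).factorial : ℝ) ≠ 0 := by positivity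
        have hq' : (volume (Q π ∅ (m + j))).toReal ≠ 0 := (hqpos j).ne'
        have hel : Real.exp l ≠ 0 := (Real.exp_pos l).ne'
        simp only [hr, hq]
        field_simp
      rw [e1]
      have h2 := Real.abs_exp_sub_one_le (hlj.trans hn1)
      rw [Real.norm_eq_abs, Real.norm_eq_abs, abs_of_pos (pow_pos hρ0 _)]
      refine h2.trans ?_
      have h3 : ρ ^ (j - J0) = (ρ ^ (m + J0))⁻¹ * ρ ^ (m + j) := by
        have e2 : m + j = (m + J0) + (j - J0) := by omega
        rw [e2, pow_add ρ (m + J0), inv_mul_cancel_left₀ (by positivity)]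
      calc 2 * |x j - l| ≤ 2 * (D' * ρ ^ (j - J0)) := by gcongr
        _ = 2 * D' * (ρ ^ (m + J0))⁻¹ * ρ ^ (m + j) := by rw [h3]; ring
    · intro n
      have h1 := cnt_empty_pos π hK1 n
      have h2 := Real.exp_pos l
      field_simp
      ring

/-! ### Complementation -/

/-- The complementary pattern. -/
def compl (π : Equiv.Perm (Fin (K + 1))) : Equiv.Perm (Fin (K + 1)) := π.trans Fin.revPerm

theorem compl_apply (a : Fin (K + 1)) : compl π a = (π a).rev := rfl

theorem occAt_compl {n : ℕ} (w : Equiv.Perm (Fin n)) (i : ℕ) :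
    OccAt (compl π) (fun a => (w.trans Fin.revPerm) a) i ↔ OccAt π (fun a => w a) i := by
  unfold OccAt
  constructor
  · rintro ⟨h1, h2⟩
    refine ⟨h1, fun a b => ?_⟩
    have := h2 b a
    simpa [compl_apply] using this
  · rintro ⟨h1, h2⟩
    refine ⟨h1, fun a b => ?_⟩
    have := h2 b a
    simpa [compl_apply] using this

theorem cnt_compl (S : Set ℕ) (n : ℕ) : cnt (compl π) S n = cnt π S n := by
  classical
  unfold cnt
  symm
  apply Finset.card_bij (fun w _ => w.trans Fin.revPerm)
  · intro w hw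
    simp only [Finset.mem_filter, Finset.mem_univ, true_and] at hw ⊢
    intro i
    rw [occAt_compl, hw i]
  · intro w _ w' _ h
    apply Equiv.ext
    intro i
    have h2 := congrArg (fun e : Equiv.Perm (Fin n) => (e i).rev) h
    simpa using h2
  · intro w hw
    simp only [Finset.mem_filter, Finset.mem_univ, true_and] at hw
    refine ⟨w.trans Fin.revPerm, ?_, ?_⟩
    · simp only [Finset.mem_filter, Finset.mem_univ, true_and]
      intro i
      rw [← hw i, ← occAt_compl]
      have e : (w.trans Fin.revPerm).trans Fin.revPerm = w := by ext a; simp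
      rw [e]
    · ext a; simp

theorem cases4 (hK : 2 ≤ K) :
    (CaseA π ∨ CaseB π) ∨ (CaseA (compl π) ∨ CaseB (compl π)) := by
  have h0l : (0 : Fin (K + 1)) ≠ Fin.last K := by
    intro h; have := congrArg Fin.val h; simp at this; omega
  have hsucc : ∀ a : Fin K, a.succ ≠ 0 := fun a => Fin.succ_ne_zero a
  have hcs : ∀ a : Fin K, a.castSucc ≠ Fin.last K := fun a => (Fin.castSucc_lt_last a).ne
  have hne1 : ∀ a : Fin K, π a.succ ≠ π 0 := fun a h => hsucc a (π.injective h)
  have hne2 : ∀ a : Fin K, π a.castSucc ≠ π (Fin.last K) := fun a h => hcs a (π.injective h)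
  have e0 : (0 : Fin (K + 1)) = (⟨0, by omega⟩ : Fin K).castSucc := by ext; simp
  have el : Fin.last K = (⟨K - 1, by omega⟩ : Fin K).succ := by ext; simp; omega
  by_cases h1 : ∃ a : Fin K, π a.castSucc < π (Fin.last K)
  · by_cases h2 : ∃ a : Fin K, π a.succ < π 0
    · exact Or.inl (Or.inl ⟨h1, h2⟩)
    · -- `π 0` is the minimum
      push Not at h2
      have h2' : ∀ a : Fin K, π 0 < π a.succ := fun a => lt_of_le_of_ne (h2 a) (hne1 a).symm
      by_cases h3 : ∃ a : Fin K, π (Fin.last K) < π a.castSucc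
      · right; left
        refine ⟨?_, ?_⟩
        · obtain ⟨a, ha⟩ := h3
          exact ⟨a, by rw [compl_apply, compl_apply, Fin.rev_lt_rev]; exact ha⟩
        · refine ⟨⟨0, by omega⟩, ?_⟩
          rw [compl_apply, compl_apply, Fin.rev_lt_rev]; exact h2' _
      · push Not at h3
        left; right
        exact ⟨h2', fun a => lt_of_le_of_ne (h3 a) (hne2 a)⟩
  · push Not at h1
    -- `π last` is the minimum
    have h1' : ∀ a : Fin K, π (Fin.last K) < π a.castSucc := fun a =>
      lt_of_le_of_ne (h1 a) (hne2 a).symm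
    right
    by_cases h2 : ∃ a : Fin K, π 0 < π a.succ
    · left
      refine ⟨⟨⟨0, by omega⟩, ?_⟩, ?_⟩
      · rw [compl_apply, compl_apply, Fin.rev_lt_rev]; exact h1' _
      · obtain ⟨a, ha⟩ := h2
        exact ⟨a, by rw [compl_apply, compl_apply, Fin.rev_lt_rev]; exact ha⟩
    · push Not at h2
      right
      refine ⟨fun a => ?_, fun a => ?_⟩
      · rw [compl_apply, compl_apply, Fin.rev_lt_rev]
        exact lt_of_le_of_ne (h2 a) (hne1 a)
      · rw [compl_apply, compl_apply, Fin.rev_lt_rev]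
        exact h1' a

/-- The asymptotic statement for every pattern. -/
theorem asym_all (hK : 2 ≤ K) (S : Set ℕ) (hS : S.Finite) :
    ∃ (c : ℝ) (ε : ℕ → ℝ) (ρ : ℝ), 0 < ρ ∧ ρ < 1 ∧ (ε =O[atTop] fun n : ℕ => ρ ^ n) ∧
      ∀ n, (cnt π S n : ℝ) = c * cnt π ∅ n * (1 + ε n) := by
  rcases cases4 π hK with h | h
  · exact asym π hK h S hS
  · obtain ⟨c, ε, ρ, h1, h2, h3, h4⟩ := asym (compl π) hK h S hS
    refine ⟨c, ε, ρ, h1, h2, h3, fun n => ?_⟩
    have := h4 n
    rwa [cnt_compl, cnt_compl] at this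

end Pool.Agent.Lib.H8.CP
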