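import Mathlib

/-!
# Transfer operators for consecutive patterns: basic facts

States are vectors of `K` reals of the unit interval (the last `K` letters of a word), a pattern
is a permutation of `Fin (K+1)`.
-/

open MeasureTheory unitInterval
open scoped ENNReal

namespace Pool.Agent.Lib.H8.CP

/-- The word `x` is order-isomorphic to `π`. -/
def Iso {m : ℕ} (π : Equiv.Perm (Fin m)) (x : Fin m → I) : Prop :=
  ∀ a b, x a < x b ↔ π a < π b

variable {K : ℕ}

/-- The window formed by the state `y` and the next letter `t`. -/
def win (y : Fin K → I) (t : I) : Fin (K + 1) → I := Fin.snoc (α := fun _ => I) y t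

/-- The state after reading the letter `t` in state `y`. -/
def nxt (y : Fin K → I) (t : I) : Fin K → I := fun a => win y t a.succ

/-- The window formed by a previous letter `t` and the state `y`. -/
def winB (t : I) (y : Fin K → I) : Fin (K + 1) → I := Fin.cons (α := fun _ => I) t y

/-- The state before, when `t` is the letter which was forgotten. -/
def prv (t : I) (y : Fin K → I) : Fin K → I := fun a => winB t y a.castSucc

@[simp] theorem win_castSucc (y : Fin K → I) (t : I) (a : Fin K) : win y t a.castSucc = y a := by
  simp [win]

@[simp] theorem win_last (y : Fin K → I) (t : I) : win y t (Fin.last K) = t := by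
  simp [win]

@[simp] theorem winB_zero (y : Fin K → I) (t : I) : winB t y 0 = t := by
  simp [winB]

@[simp] theorem winB_succ (y : Fin K → I) (t : I) (a : Fin K) : winB t y a.succ = y a := by
  simp [winB]

theorem measurable_win : Measurable (fun p : (Fin K → I) × I => win p.1 p.2) := by
  rw [measurable_pi_iff]
  intro a
  refine Fin.lastCases ?_ (fun b => ?_) a
  · simp only [win_last]; exact measurable_snd
  · simp only [win_castSucc]; exact (measurable_pi_apply b).comp measurable_fst

theorem measurable_winB : Measurable (fun p : (Fin K → I) × I => winB p.2 p.1) := by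
  rw [measurable_pi_iff]
  intro a
  refine Fin.cases ?_ (fun b => ?_) a
  · simp only [winB_zero]; exact measurable_snd
  · simp only [winB_succ]; exact (measurable_pi_apply b).comp measurable_fst

theorem measurable_nxt : Measurable (fun p : (Fin K → I) × I => nxt p.1 p.2) := by
  rw [measurable_pi_iff]
  intro a
  exact (measurable_pi_apply a.succ).comp measurable_win

theorem measurable_prv : Measurable (fun p : (Fin K → I) × I => prv p.2 p.1) := by
  rw [measurable_pi_iff]
  intro a
  exact (measurable_pi_apply a.castSucc).comp measurable_winB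

theorem measurableSet_iso {m : ℕ} (π : Equiv.Perm (Fin m)) : MeasurableSet {x | Iso π x} := by
  have : {x : Fin m → I | Iso π x} = ⋂ a, ⋂ b, {x | x a < x b ↔ π a < π b} := by
    ext x; simp [Iso]
  rw [this]
  refine MeasurableSet.iInter fun a => MeasurableSet.iInter fun b => ?_
  by_cases h : π a < π b
  · simp only [h, iff_true]
    exact measurableSet_lt (measurable_pi_apply a) (measurable_pi_apply b)
  · simp only [h, iff_false]
    exact (measurableSet_lt (measurable_pi_apply a) (measurable_pi_apply b)).compl

open Classical in
/-- The forward transfer operator. -/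
noncomputable def T (π : Equiv.Perm (Fin (K + 1))) (f : (Fin K → I) → ℝ≥0∞) (y : Fin K → I) :
    ℝ≥0∞ := ∫⁻ t, if Iso π (win y t) then 0 else f (nxt y t)

open Classical in
/-- The backward transfer operator. -/
noncomputable def TB (π : Equiv.Perm (Fin (K + 1))) (f : (Fin K → I) → ℝ≥0∞) (y : Fin K → I) :
    ℝ≥0∞ := ∫⁻ t, if Iso π (winB t y) then 0 else f (prv t y)

section basic

variable (π : Equiv.Perm (Fin (K + 1)))

open Classical in
theorem measurable_T_integrand {f : (Fin K → I) → ℝ≥0∞} (hf : Measurable f) :
    Measurable (fun p : (Fin K → I) × I => if Iso π (win p.1 p.2) then 0 else f (nxt p.1 p.2)) :=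
  Measurable.ite (measurable_win (measurableSet_iso π)) measurable_const
    (hf.comp measurable_nxt)

open Classical in
theorem measurable_TB_integrand {f : (Fin K → I) → ℝ≥0∞} (hf : Measurable f) :
    Measurable (fun p : (Fin K → I) × I => if Iso π (winB p.2 p.1) then 0 else f (prv p.2 p.1)) :=
  Measurable.ite (measurable_winB (measurableSet_iso π)) measurable_const
    (hf.comp measurable_prv)

open Classical in
theorem measurable_T_section {f : (Fin K → I) → ℝ≥0∞} (hf : Measurable f) (y : Fin K → I) :
    Measurable (fun t : I => if Iso π (win y t) then 0 else f (nxt y t)) :=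
  (measurable_T_integrand π hf).comp (measurable_prodMk_left (x := y))

open Classical in
theorem measurable_TB_section {f : (Fin K → I) → ℝ≥0∞} (hf : Measurable f) (y : Fin K → I) :
    Measurable (fun t : I => if Iso π (winB t y) then 0 else f (prv t y)) :=
  (measurable_TB_integrand π hf).comp (measurable_prodMk_left (x := y))

theorem measurable_T {f : (Fin K → I) → ℝ≥0∞} (hf : Measurable f) : Measurable (T π f) :=
  (measurable_T_integrand π hf).lintegral_prod_right'

theorem measurable_TB {f : (Fin K → I) → ℝ≥0∞} (hf : Measurable f) : Measurable (TB π f) :=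
  (measurable_TB_integrand π hf).lintegral_prod_right'

theorem T_mono {f g : (Fin K → I) → ℝ≥0∞} (h : ∀ y, f y ≤ g y) (y : Fin K → I) :
    T π f y ≤ T π g y := by
  apply lintegral_mono
  intro t
  dsimp only
  split_ifs
  · exact le_refl _
  · exact h _

theorem TB_mono {f g : (Fin K → I) → ℝ≥0∞} (h : ∀ y, f y ≤ g y) (y : Fin K → I) :
    TB π f y ≤ TB π g y := by
  apply lintegral_mono
  intro t
  dsimp only
  split_ifs
  · exact le_refl _
  · exact h _

theorem T_add {f g : (Fin K → I) → ℝ≥0∞} (hf : Measurable f) :
    T π (fun y => f y + g y) = fun y => T π f y + T π g y := by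
  classical
  funext y
  unfold T
  rw [← lintegral_add_left (measurable_T_section π hf y)]
  apply lintegral_congr
  intro t
  dsimp only [Function.comp_def]
  split_ifs
  · simp
  · rfl

theorem T_const_mul {f : (Fin K → I) → ℝ≥0∞} (hf : Measurable f) (c : ℝ≥0∞) :
    T π (fun y => c * f y) = fun y => c * T π f y := by
  classical
  funext y
  unfold T
  rw [← lintegral_const_mul _ (measurable_T_section π hf y)]
  apply lintegral_congr
  intro t
  dsimp only [Function.comp_def]
  split_ifs
  · simp
  · rfl

theorem TB_const_mul {f : (Fin K → I) → ℝ≥0∞} (hf : Measurable f) (c : ℝ≥0∞) :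
    TB π (fun y => c * f y) = fun y => c * TB π f y := by
  classical
  funext y
  unfold TB
  rw [← lintegral_const_mul _ (measurable_TB_section π hf y)]
  apply lintegral_congr
  intro t
  dsimp only [Function.comp_def]
  split_ifs
  · simp
  · rfl

theorem measurable_T_iter {f : (Fin K → I) → ℝ≥0∞} (hf : Measurable f) (j : ℕ) :
    Measurable ((T π)^[j] f) := by
  induction j with
  | zero => simpa using hf
  | succ j ih => rw [Function.iterate_succ_apply']; exact measurable_T π ih

theorem measurable_TB_iter {f : (Fin K → I) → ℝ≥0∞} (hf : Measurable f) (j : ℕ) :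
    Measurable ((TB π)^[j] f) := by
  induction j with
  | zero => simpa using hf
  | succ j ih => rw [Function.iterate_succ_apply']; exact measurable_TB π ih

theorem T_iter_mono {f g : (Fin K → I) → ℝ≥0∞} (h : ∀ y, f y ≤ g y) (j : ℕ) (y : Fin K → I) :
    (T π)^[j] f y ≤ (T π)^[j] g y := by
  induction j generalizing y with
  | zero => simpa using h y
  | succ j ih =>
    rw [Function.iterate_succ_apply', Function.iterate_succ_apply']
    exact T_mono π ih y

theorem TB_iter_mono {f g : (Fin K → I) → ℝ≥0∞} (h : ∀ y, f y ≤ g y) (j : ℕ) (y : Fin K → I) :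
    (TB π)^[j] f y ≤ (TB π)^[j] g y := by
  induction j generalizing y with
  | zero => simpa using h y
  | succ j ih =>
    rw [Function.iterate_succ_apply', Function.iterate_succ_apply']
    exact TB_mono π ih y

theorem T_iter_const_mul {f : (Fin K → I) → ℝ≥0∞} (hf : Measurable f) (c : ℝ≥0∞) (j : ℕ) :
    (T π)^[j] (fun y => c * f y) = fun y => c * (T π)^[j] f y := by
  induction j with
  | zero => rfl
  | succ j ih =>
    rw [Function.iterate_succ_apply', ih, T_const_mul π (measurable_T_iter π hf j),
      Function.iterate_succ_apply']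

theorem TB_iter_const_mul {f : (Fin K → I) → ℝ≥0∞} (hf : Measurable f) (c : ℝ≥0∞) (j : ℕ) :
    (TB π)^[j] (fun y => c * f y) = fun y => c * (TB π)^[j] f y := by
  induction j with
  | zero => rfl
  | succ j ih =>
    rw [Function.iterate_succ_apply', ih, TB_const_mul π (measurable_TB_iter π hf j),
      Function.iterate_succ_apply']

theorem T_iter_add {f g : (Fin K → I) → ℝ≥0∞} (hf : Measurable f) (j : ℕ) :
    (T π)^[j] (fun y => f y + g y) = fun y => (T π)^[j] f y + (T π)^[j] g y := by
  induction j with
  | zero => rfl
  | succ j ih =>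
    rw [Function.iterate_succ_apply', ih, T_add π (measurable_T_iter π hf j)]
    simp only [Function.iterate_succ_apply']

/-- `h j y` is the probability that no occurrence shows up during `j` steps from the state `y`. -/
noncomputable def h (j : ℕ) : (Fin K → I) → ℝ≥0∞ := (T π)^[j] (fun _ => 1)

theorem h_zero (y : Fin K → I) : h π 0 y = 1 := rfl

theorem h_succ (j : ℕ) : h π (j + 1) = T π (h π j) := by
  unfold h; rw [Function.iterate_succ_apply']

theorem h_add (i j : ℕ) : h π (i + j) = (T π)^[i] (h π j) := by
  unfold h; rw [Function.iterate_add_apply]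

theorem measurable_h (j : ℕ) : Measurable (h π j) := measurable_T_iter π measurable_const j

theorem T_le_one {f : (Fin K → I) → ℝ≥0∞} (hf : ∀ y, f y ≤ 1) (y : Fin K → I) : T π f y ≤ 1 := by
  calc T π f y ≤ ∫⁻ _ : I, 1 := by
        apply lintegral_mono
        intro t
        dsimp only
        split_ifs
        · exact bot_le
        · exact hf _
    _ = 1 := by simp

theorem h_le_one (j : ℕ) (y : Fin K → I) : h π j y ≤ 1 := by
  induction j generalizing y with
  | zero => exact le_refl _
  | succ j ih => rw [h_succ]; exact T_le_one π ih y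

theorem h_succ_le (j : ℕ) (y : Fin K → I) : h π (j + 1) y ≤ h π j y := by
  rw [h_add]
  exact T_iter_mono π (fun y => h_le_one π 1 y) j y

theorem h_antitone {i j : ℕ} (hij : i ≤ j) (y : Fin K → I) : h π j y ≤ h π i y := by
  induction j, hij using Nat.le_induction with
  | base => exact le_refl _
  | succ j _ ih => exact (h_succ_le π j y).trans ih

theorem h_ne_top (j : ℕ) (y : Fin K → I) : h π j y ≠ ⊤ :=
  ne_top_of_le_ne_top ENNReal.one_ne_top (h_le_one π j y)

end basic

section adjoint

variable (π : Equiv.Perm (Fin (K + 1)))

theorem lintegral_snoc {n : ℕ} {F : (Fin (n + 1) → I) → ℝ≥0∞} (hF : Measurable F) :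
    ∫⁻ x, F x = ∫⁻ y : Fin n → I, ∫⁻ t : I, F (Fin.snoc (α := fun _ => I) y t) := by
  have h1 := (volume_preserving_piFinSuccAbove (fun _ : Fin (n + 1) => I) (Fin.last n)).symm
  rw [← h1.lintegral_comp hF, Measure.volume_eq_prod, lintegral_prod_symm]
  · apply lintegral_congr
    intro y
    apply lintegral_congr
    intro t
    congr 1
    exact Fin.insertNth_last' (β := I) t y
  · exact (hF.comp (MeasurableEquiv.measurable _)).aemeasurable

theorem lintegral_cons {n : ℕ} {F : (Fin (n + 1) → I) → ℝ≥0∞} (hF : Measurable F) :
    ∫⁻ x, F x = ∫⁻ y : Fin n → I, ∫⁻ t : I, F (Fin.cons (α := fun _ => I) t y) := by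
  have h1 := (volume_preserving_piFinSuccAbove (fun _ : Fin (n + 1) => I) 0).symm
  rw [← h1.lintegral_comp hF, Measure.volume_eq_prod, lintegral_prod_symm]
  · apply lintegral_congr
    intro y
    apply lintegral_congr
    intro t
    congr 1
    exact Fin.insertNth_zero' (β := I) t y
  · exact (hF.comp (MeasurableEquiv.measurable _)).aemeasurable

/-- `T` and `TB` are adjoint. -/
theorem adjoint {f g : (Fin K → I) → ℝ≥0∞} (hf : Measurable f) (hg : Measurable g) :
    ∫⁻ y, g y * T π f y = ∫⁻ y, TB π g y * f y := by
  classical
  set F : (Fin (K + 1) → I) → ℝ≥0∞ := fun x =>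
    if Iso π x then 0 else g (fun a => x a.castSucc) * f (fun a => x a.succ) with hF
  have hFm : Measurable F := by
    apply Measurable.ite (measurableSet_iso π) measurable_const
    apply Measurable.mul
    · exact hg.comp (measurable_pi_lambda _ fun a => measurable_pi_apply _)
    · exact hf.comp (measurable_pi_lambda _ fun a => measurable_pi_apply _)
  have e1 : ∫⁻ x, F x = ∫⁻ y, g y * T π f y := by
    rw [lintegral_snoc hFm]
    apply lintegral_congr
    intro y
    unfold T
    rw [← lintegral_const_mul _ (measurable_T_section π hf y)]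
    apply lintegral_congr
    intro t
    simp only [hF]
    change (if Iso π (win y t) then 0 else g (fun a => win y t a.castSucc) *
      f (fun a => win y t a.succ)) = _
    simp only [win_castSucc]
    split_ifs
    · simp
    · rfl
  have e2 : ∫⁻ x, F x = ∫⁻ y, TB π g y * f y := by
    rw [lintegral_cons hFm]
    apply lintegral_congr
    intro y
    unfold TB
    rw [← lintegral_mul_const _ (measurable_TB_section π hg y)]
    apply lintegral_congr
    intro t
    simp only [hF]
    change (if Iso π (winB t y) then 0 else g (fun a => winB t y a.castSucc) *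
      f (fun a => winB t y a.succ)) = _
    simp only [winB_succ]
    split_ifs
    · simp
    · rfl
  rw [← e1, e2]

theorem adjoint_iter {f g : (Fin K → I) → ℝ≥0∞} (hf : Measurable f) (hg : Measurable g) (j : ℕ) :
    ∫⁻ y, g y * (T π)^[j] f y = ∫⁻ y, (TB π)^[j] g y * f y := by
  induction j generalizing g with
  | zero => rfl
  | succ j ih =>
    rw [Function.iterate_succ_apply', adjoint π (measurable_T_iter π hf j) hg,
      ih (measurable_TB π hg), Function.iterate_succ_apply]

/-- The reversed pattern. -/
def revPat (π : Equiv.Perm (Fin (K + 1))) : Equiv.Perm (Fin (K + 1)) := Fin.revPerm.trans π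

theorem revPat_apply (a : Fin (K + 1)) : revPat π a = π a.rev := rfl

theorem iso_revPat (x : Fin (K + 1) → I) : Iso (revPat π) (fun a => x a.rev) ↔ Iso π x := by
  constructor
  · intro h a b
    have := h a.rev b.rev
    simpa [revPat_apply] using this
  · intro h a b
    exact h a.rev b.rev

theorem win_rev (y : Fin K → I) (t : I) :
    win (fun a => y a.rev) t = fun a => winB t y a.rev := by
  funext a
  refine Fin.lastCases ?_ (fun b => ?_) a
  · simp
  · simp only [win_castSucc]
    rw [Fin.rev_castSucc, winB_succ]

theorem nxt_rev (y : Fin K → I) (t : I) :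
    nxt (fun a => y a.rev) t = fun a => prv t y a.rev := by
  funext a
  unfold nxt prv
  rw [win_rev]
  change winB t y (a.succ).rev = _
  rw [Fin.rev_succ]

theorem TB_eq (g : (Fin K → I) → ℝ≥0∞) (y : Fin K → I) :
    TB π g y = T (revPat π) (fun z => g (fun a => z a.rev)) (fun a => y a.rev) := by
  classical
  unfold TB T
  apply lintegral_congr
  intro t
  rw [win_rev, nxt_rev]
  have h1 : Iso (revPat π) (fun a => winB t y a.rev) ↔ Iso π (winB t y) := iso_revPat π _
  by_cases h2 : Iso π (winB t y)
  · rw [if_pos h2, if_pos (h1.mpr h2)]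
  · rw [if_neg h2, if_neg (fun h => h2 (h1.mp h))]
    simp

theorem TB_iter_eq (g : (Fin K → I) → ℝ≥0∞) (j : ℕ) (y : Fin K → I) :
    (TB π)^[j] g y = (T (revPat π))^[j] (fun z => g (fun a => z a.rev)) (fun a => y a.rev) := by
  induction j generalizing y with
  | zero => simp
  | succ j ih =>
    rw [Function.iterate_succ_apply', Function.iterate_succ_apply', TB_eq]
    congr 1
    funext z
    rw [ih]
    simp

end adjoint

end Pool.Agent.Lib.H8.CP
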