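import Pool.Agent.Lib.H8.CP.Escape

/-!
# `K` steps of the transfer operator: comparison with Lebesgue measure
-/

open MeasureTheory unitInterval
open scoped ENNReal

namespace Pool.Agent.Lib.H8.CP

variable {K : ℕ}

/-- Extension of a vector by `0`. -/
noncomputable def ex (x : Fin K → I) (j : ℕ) : I := if h : j < K then x ⟨j, h⟩ else 0

theorem ex_of_lt (x : Fin K → I) {j : ℕ} (h : j < K) : ex x j = x ⟨j, h⟩ := by simp [ex, h]

/-- The state obtained from `m` after reading the first `i` letters of `x`. -/
noncomputable def st (m x : Fin K → I) (i : ℕ) : Fin K → I := fun a =>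
  if (a : ℕ) + i < K then ex m (a + i) else ex x (a + i - K)

theorem st_zero (m x : Fin K → I) : st m x 0 = m := by
  funext a
  simp [st, ex_of_lt m a.2]

theorem st_K (m x : Fin K → I) : st m x K = x := by
  funext a
  have : ¬ ((a : ℕ) + K < K) := by omega
  simp only [st, this, if_false, Nat.add_sub_cancel]
  exact ex_of_lt x a.2

theorem nxt_st (m x : Fin K → I) (i : Fin K) (t : I) :
    nxt (st m x i) t = st m (Function.update x i t) (i + 1) := by
  funext a
  rcases Nat.lt_or_ge ((a : ℕ) + 1) K with h | h
  · rw [nxt_of_lt _ t a h]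
    unfold st
    simp only
    by_cases h1 : (a : ℕ) + 1 + i < K
    · have h2 : (a : ℕ) + (i + 1) < K := by omega
      rw [if_pos h1, if_pos h2]
      congr 1; omega
    · have h2 : ¬ ((a : ℕ) + (i + 1) < K) := by omega
      rw [if_neg h1, if_neg h2]
      have h3 : (a : ℕ) + 1 + i - K < K := by omega
      have h4 : (a : ℕ) + (i + 1) - K < K := by omega
      rw [ex_of_lt x h3, ex_of_lt _ h4, Function.update_of_ne]
      · congr 1; ext; simp only; omega
      · intro h5
        have := congrArg Fin.val h5
        simp only at this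
        omega
  · have hK : (a : ℕ) + 1 = K := by omega
    rw [nxt_of_eq _ t a hK]
    unfold st
    have h2 : ¬ ((a : ℕ) + (i + 1) < K) := by omega
    have h4 : (a : ℕ) + (i + 1) - K < K := by omega
    rw [if_neg h2, ex_of_lt _ h4]
    have h5 : (⟨(a : ℕ) + (i + 1) - K, h4⟩ : Fin K) = i := by ext; simp only; omega
    rw [h5, Function.update_self]

variable (π : Equiv.Perm (Fin (K + 1)))

theorem T_le_lintegral (f : (Fin K → I) → ℝ≥0∞) (y : Fin K → I) :
    T π f y ≤ ∫⁻ t, f (nxt y t) := by
  classical
  unfold T
  apply lintegral_mono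
  intro t
  dsimp only
  split_ifs
  · exact bot_le
  · exact le_refl _

theorem filter_succ {j : ℕ} (hj : j + 1 ≤ K) :
    (Finset.univ.filter (fun a : Fin K => K - (j + 1) ≤ (a : ℕ))) =
      insert (⟨K - (j + 1), by omega⟩ : Fin K)
        (Finset.univ.filter (fun a : Fin K => K - j ≤ (a : ℕ))) := by
  ext a
  simp only [Finset.mem_filter, Finset.mem_univ, true_and, Finset.mem_insert, Fin.ext_iff]
  omega

theorem T_iter_le_marginal {f : (Fin K → I) → ℝ≥0∞} (hf : Measurable f) (m : Fin K → I) (j : ℕ)
    (hj : j ≤ K) (x : Fin K → I) :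
    (T π)^[j] f (st m x (K - j)) ≤
      lmarginal (fun _ => volume) (Finset.univ.filter (fun a : Fin K => K - j ≤ (a : ℕ))) f x := by
  induction j generalizing x with
  | zero =>
    have h1 : (Finset.univ.filter (fun a : Fin K => K - 0 ≤ (a : ℕ))) = ∅ := by
      ext a
      simp only [Finset.mem_filter, Finset.mem_univ, true_and]
      simp
    rw [h1, lmarginal_empty]
    simp [st_K]
  | succ j ih =>
    rw [filter_succ hj, lmarginal_insert f hf (by simp; omega), Function.iterate_succ_apply']
    refine (T_le_lintegral π _ _).trans ?_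
    apply lintegral_mono
    intro t
    dsimp only
    have h1 := nxt_st m x ⟨K - (j + 1), by omega⟩ t
    simp only at h1
    rw [h1]
    have h2 : K - (j + 1) + 1 = K - j := by omega
    rw [h2]
    exact ih (by omega) _

/-- After `K` steps, the law of the state has density at most one. -/
theorem T_iter_K_le {f : (Fin K → I) → ℝ≥0∞} (hf : Measurable f) (y : Fin K → I) :
    (T π)^[K] f y ≤ ∫⁻ z, f z := by
  have h1 := T_iter_le_marginal π hf y K le_rfl y
  rw [Nat.sub_self, st_zero] at h1
  have h2 : (Finset.univ.filter (fun a : Fin K => 0 ≤ (a : ℕ))) = Finset.univ := by simp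
  rw [h2, lmarginal_univ, ← volume_pi] at h1
  exact h1

theorem T_iter_ge_marginal {f : (Fin K → I) → ℝ≥0∞} (hf : Measurable f) (m : Fin K → I)
    (B : Fin K → Set I) (hB : ∀ a, MeasurableSet (B a))
    (hw : ∀ (i : Fin K) (x : Fin K → I) (t : I), (∀ a, a < i → x a ∈ B a) → t ∈ B i →
      ¬ Iso π (win (st m x i) t)) (j : ℕ)
    (hj : j ≤ K) (x : Fin K → I) (hx : ∀ a : Fin K, (a : ℕ) < K - j → x a ∈ B a) :
      lmarginal (fun _ => volume) (Finset.univ.filter (fun a : Fin K => K - j ≤ (a : ℕ)))
        ((Set.univ.pi B).indicator f) x ≤ (T π)^[j] f (st m x (K - j)) := by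
  have hfm : Measurable ((Set.univ.pi B).indicator f) :=
    hf.indicator (MeasurableSet.univ_pi hB)
  induction j generalizing x with
  | zero =>
    have h1 : (Finset.univ.filter (fun a : Fin K => K - 0 ≤ (a : ℕ))) = ∅ := by
      ext a
      simp only [Finset.mem_filter, Finset.mem_univ, true_and]
      simp
    rw [h1, lmarginal_empty]
    have h2 : (T π)^[0] f (st m x (K - 0)) = f x := by simp [st_K]
    rw [h2]
    exact Set.indicator_le_self _ _ _
  | succ j ih =>
    classical
    rw [filter_succ hj, lmarginal_insert _ hfm (by simp; omega), Function.iterate_succ_apply']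
    unfold T
    apply lintegral_mono
    intro t
    dsimp only
    set i : Fin K := ⟨K - (j + 1), by omega⟩ with hi
    by_cases ht : t ∈ B i
    · have h3 : ¬ Iso π (win (st m x (K - (j + 1))) t) := hw i x t
        (fun a ha => hx a (by rw [Fin.lt_def] at ha; exact ha)) ht
      rw [if_neg h3]
      have h1 := nxt_st m x i t
      simp only [hi] at h1
      rw [h1]
      have h2 : K - (j + 1) + 1 = K - j := by omega
      rw [h2]
      apply ih (by omega)
      intro a ha
      by_cases h4 : a = i
      · rw [h4]; simp only [hi, Function.update_self]; exact ht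
      · rw [Function.update_of_ne h4]
        apply hx
        have h5 : (a : ℕ) ≠ K - (j + 1) := fun h => h4 (Fin.ext h)
        omega
    · refine le_trans (le_of_eq ?_) bot_le
      unfold lmarginal
      apply lintegral_eq_zero_of_ae_eq_zero
      filter_upwards with y
      simp only [Pi.zero_apply]
      apply Set.indicator_of_notMem
      intro hcon
      apply ht
      have h5 := hcon i (Set.mem_univ i)
      rw [Function.updateFinset_def] at h5
      have h6 : i ∉ (Finset.univ.filter (fun a : Fin K => K - j ≤ (a : ℕ))) := by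
        simp [hi]; omega
      simp only [h6, dite_false] at h5
      rw [Function.update_self] at h5
      exact h5

/-- Lower bound for `K` steps when all windows towards the box `B` are allowed. -/
theorem T_iter_K_ge {f : (Fin K → I) → ℝ≥0∞} (hf : Measurable f) (m : Fin K → I)
    (B : Fin K → Set I) (hB : ∀ a, MeasurableSet (B a))
    (hw : ∀ (i : Fin K) (x : Fin K → I) (t : I), (∀ a, a < i → x a ∈ B a) → t ∈ B i →
      ¬ Iso π (win (st m x i) t)) :
    ∫⁻ z in Set.univ.pi B, f z ≤ (T π)^[K] f m := by
  have h1 := T_iter_ge_marginal π hf m B hB hw K le_rfl m (fun a ha => by omega)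
  rw [Nat.sub_self, st_zero] at h1
  have h2 : (Finset.univ.filter (fun a : Fin K => 0 ≤ (a : ℕ))) = Finset.univ := by simp
  rw [h2, lmarginal_univ, ← volume_pi, lintegral_indicator (MeasurableSet.univ_pi hB)] at h1
  exact h1

end Pool.Agent.Lib.H8.CP
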