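import Pool.Agent.Lib.H8.CP.Box

/-!
# Connecting boxes
-/

open MeasureTheory unitInterval
open scoped ENNReal

namespace Pool.Agent.Lib.H8.CP

variable {K : ℕ}

/-- Low levels (below `1/4`). -/
def lowI (K : ℕ) (j : ℕ) : Set I :=
  {t | (2 * j : ℝ) / (16 * K) ≤ (t : ℝ) ∧ (t : ℝ) ≤ (2 * j + 1) / (16 * K)}

/-- High levels (above `3/4`). -/
def highI (K : ℕ) (j : ℕ) : Set I :=
  {t | 1 - (2 * j + 1 : ℝ) / (16 * K) ≤ (t : ℝ) ∧ (t : ℝ) ≤ 1 - (2 * j) / (16 * K)}

theorem frac_bounds (hK : 1 ≤ K) {j : ℕ} (hj : j < 2 * K) :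
    (0 : ℝ) ≤ (2 * j) / (16 * K) ∧ (2 * j + 1 : ℝ) / (16 * K) < 1 / 4 := by
  have h1 : (0 : ℝ) < 16 * K := by positivity
  refine ⟨by positivity, ?_⟩
  rw [div_lt_div_iff₀ h1 (by norm_num)]
  have h2 : (j : ℝ) + 1 ≤ 2 * K := by exact_mod_cast hj
  have h3 : (1 : ℝ) ≤ K := by exact_mod_cast hK
  nlinarith

theorem frac_lt (hK : 1 ≤ K) {i j : ℕ} (hij : i < j) :
    (2 * i + 1 : ℝ) / (16 * K) < (2 * j) / (16 * K) := by
  have h1 : (0 : ℝ) < 16 * K := by positivity
  have h2 : (i : ℝ) + 1 ≤ j := by exact_mod_cast hij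
  gcongr
  linarith

theorem measurableSet_lowI (j : ℕ) : MeasurableSet (lowI K j) :=
  (measurableSet_le measurable_const measurable_subtype_coe).inter
    (measurableSet_le measurable_subtype_coe measurable_const)

theorem measurableSet_highI (j : ℕ) : MeasurableSet (highI K j) :=
  (measurableSet_le measurable_const measurable_subtype_coe).inter
    (measurableSet_le measurable_subtype_coe measurable_const)

theorem volume_lowI (hK : 1 ≤ K) {j : ℕ} (hj : j < 2 * K) : volume (lowI K j) ≠ 0 := by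
  obtain ⟨h1, h2⟩ := frac_bounds hK hj
  have h0 : (0 : ℝ) < 16 * K := by positivity
  have h3 : (2 * j : ℝ) / (16 * K) < (2 * j + 1) / (16 * K) := by gcongr; linarith
  have e : lowI K j = Set.Icc (⟨(2 * j : ℝ) / (16 * K), ⟨h1, by linarith⟩⟩ : I)
      ⟨(2 * j + 1 : ℝ) / (16 * K), ⟨by linarith, by linarith⟩⟩ := by
    ext t; rfl
  rw [e, unitInterval.volume_Icc]
  simp only [ne_eq, ENNReal.ofReal_eq_zero, not_le]
  linarith

theorem volume_highI (hK : 1 ≤ K) {j : ℕ} (hj : j < 2 * K) : volume (highI K j) ≠ 0 := by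
  obtain ⟨h1, h2⟩ := frac_bounds hK hj
  have h0 : (0 : ℝ) < 16 * K := by positivity
  have h3 : (2 * j : ℝ) / (16 * K) < (2 * j + 1) / (16 * K) := by gcongr; linarith
  have e : highI K j = Set.Icc (⟨1 - (2 * j + 1 : ℝ) / (16 * K), ⟨by linarith, by linarith⟩⟩ : I)
      ⟨1 - (2 * j : ℝ) / (16 * K), ⟨by linarith, by linarith⟩⟩ := by
    ext t; rfl
  rw [e, unitInterval.volume_Icc]
  simp only [ne_eq, ENNReal.ofReal_eq_zero, not_le]
  linarith

theorem low_lt_low (hK : 1 ≤ K) {i j : ℕ} (hij : i < j) {s t : I} (hs : s ∈ lowI K i)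
    (ht : t ∈ lowI K j) : s < t := by
  have h := frac_lt hK hij
  have h1 : (s : ℝ) < t := lt_of_le_of_lt hs.2 (lt_of_lt_of_le h ht.1)
  exact h1

theorem high_lt_high (hK : 1 ≤ K) {i j : ℕ} (hij : i < j) {s t : I} (hs : s ∈ highI K i)
    (ht : t ∈ highI K j) : t < s := by
  have h := frac_lt hK hij
  have h1 : (t : ℝ) < s := by
    have h2 := ht.2
    have h3 := hs.1
    linarith
  exact h1

theorem low_lt_high (hK : 1 ≤ K) {i j : ℕ} (hi : i < 2 * K) (hj : j < 2 * K) {s t : I}
    (hs : s ∈ lowI K i) (ht : t ∈ highI K j) : s < t := by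
  have h1 := frac_bounds hK hi
  have h2 := frac_bounds hK hj
  have h3 : (s : ℝ) < t := by
    have h4 := ht.1
    have h5 := hs.2
    linarith [h1.2, h2.2]
  exact h3

theorem low_lt_mid (hK : 1 ≤ K) {i : ℕ} (hi : i < 2 * K) {s : I} (hs : s ∈ lowI K i)
    {m : Fin K → I} (hm : m ∈ Mid K (1 / 4) K) (a : Fin K) : s < m a := by
  have h1 := frac_bounds hK hi
  have h2 := hm a (by omega)
  rw [abs_le] at h2
  have h3 : (s : ℝ) < m a := by
    have h5 := hs.2
    linarith [h1.2, h2.1]
  exact h3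

theorem mid_lt_high (hK : 1 ≤ K) {i : ℕ} (hi : i < 2 * K) {s : I} (hs : s ∈ highI K i)
    {m : Fin K → I} (hm : m ∈ Mid K (1 / 4) K) (a : Fin K) : m a < s := by
  have h1 := frac_bounds hK hi
  have h2 := hm a (by omega)
  rw [abs_le] at h2
  have h3 : (m a : ℝ) < s := by
    have h5 := hs.1
    linarith [h1.2, h2.2]
  exact h3

section lemmas

variable (π : Equiv.Perm (Fin (K + 1)))

/-- `π_k ≠ 1` and `π_1 ≠ 1` -/
def CaseA : Prop := (∃ a : Fin K, π a.castSucc < π (Fin.last K)) ∧ ∃ a : Fin K, π a.succ < π 0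

/-- `π_1 = 1` and `π_k = k` -/
def CaseB : Prop := (∀ a : Fin K, π 0 < π a.succ) ∧ ∀ a : Fin K, π a.castSucc < π (Fin.last K)

theorem st_of_lt (m x : Fin K → I) (i : ℕ) (a : Fin K) (h : (a : ℕ) + i < K) :
    st m x i a = m ⟨a + i, h⟩ := by
  unfold st; rw [if_pos h, ex_of_lt]

theorem st_of_ge (m x : Fin K → I) (i : ℕ) (a : Fin K) (h : ¬ (a : ℕ) + i < K)
    (h2 : (a : ℕ) + i - K < K) : st m x i a = x ⟨a + i - K, h2⟩ := by
  unfold st; rw [if_neg h, ex_of_lt]

theorem to_low (hK : 1 ≤ K) (hπ : ∃ a : Fin K, π a.castSucc < π (Fin.last K)) (d : Fin K → ℕ)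
    (hd : ∀ a b, a < b → d b < d a) (hd2 : ∀ a, d a < 2 * K) {m : Fin K → I}
    (hm : m ∈ Mid K (1 / 4) K) (i : Fin K) (x : Fin K → I) (t : I)
    (hx : ∀ a, a < i → x a ∈ lowI K (d a)) (ht : t ∈ lowI K (d i)) :
    ¬ Iso π (win (st m x i) t) := by
  intro hI
  rw [iso_win_iff] at hI
  obtain ⟨a, ha⟩ := hπ
  have h1 : t < st m x i a := by
    by_cases h : (a : ℕ) + i < K
    · rw [st_of_lt _ _ _ _ h]
      exact low_lt_mid hK (hd2 _) ht hm _
    · have h2 : (a : ℕ) + i - K < K := by omega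
      rw [st_of_ge _ _ _ _ h h2]
      have h3 : (⟨(a : ℕ) + i - K, h2⟩ : Fin K) < i := by rw [Fin.lt_def]; simp only; omega
      exact low_lt_low hK (hd _ _ h3) ht (hx _ h3)
  exact absurd ((hI.2.2 a).mp h1) (not_lt.mpr ha.le)

theorem to_high (hK : 1 ≤ K) (hπ : ∃ a : Fin K, π (Fin.last K) < π a.castSucc) (d : Fin K → ℕ)
    (hd : ∀ a b, a < b → d b < d a) (hd2 : ∀ a, d a < 2 * K) {m : Fin K → I}
    (hm : m ∈ Mid K (1 / 4) K) (i : Fin K) (x : Fin K → I) (t : I)
    (hx : ∀ a, a < i → x a ∈ highI K (d a)) (ht : t ∈ highI K (d i)) :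
    ¬ Iso π (win (st m x i) t) := by
  intro hI
  rw [iso_win_iff] at hI
  obtain ⟨a, ha⟩ := hπ
  have h1 : st m x i a < t := by
    by_cases h : (a : ℕ) + i < K
    · rw [st_of_lt _ _ _ _ h]
      exact mid_lt_high hK (hd2 _) ht hm _
    · have h2 : (a : ℕ) + i - K < K := by omega
      rw [st_of_ge _ _ _ _ h h2]
      have h3 : (⟨(a : ℕ) + i - K, h2⟩ : Fin K) < i := by rw [Fin.lt_def]; simp only; omega
      exact high_lt_high hK (hd _ _ h3) ht (hx _ h3)
  exact absurd ((hI.2.1 a).mp h1) (not_lt.mpr ha.le)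

theorem conn_A1 (hK : 1 ≤ K) (hπ : ∃ a : Fin K, π 0 < π a.succ) (d e : Fin K → ℕ)
    (hd : ∀ a b, a < b → d b < d a) (hde : ∀ a b, e a < d b) {m : Fin K → I}
    (hm : ∀ a, m a ∈ lowI K (d a)) (i : Fin K) (x : Fin K → I) (t : I)
    (hx : ∀ a, a < i → x a ∈ lowI K (e a)) (ht : t ∈ lowI K (e i)) :
    ¬ Iso π (win (st m x i) t) := by
  intro hI
  rw [iso_win_iff] at hI
  obtain ⟨a, ha⟩ := hπ
  set z : Fin K := ⟨0, by omega⟩ with hz
  have hz0 : z.castSucc = 0 := by ext; simp [hz]
  have h0 : st m x i z = m i := by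
    have h : (z : ℕ) + i < K := by simp [hz]
    rw [st_of_lt _ _ _ _ h]
    congr 1; ext; simp [hz]
  rcases Nat.lt_or_ge ((a : ℕ) + 1) K with h | h
  · -- entry with index `a+1 < K`
    have e1 : a.succ = (⟨a + 1, h⟩ : Fin K).castSucc := by ext; simp
    rw [e1, ← hz0, ← hI.1 z ⟨a + 1, h⟩, h0] at ha
    apply absurd ha (not_lt.mpr _)
    by_cases h2 : (a : ℕ) + 1 + i < K
    · rw [st_of_lt _ _ _ ⟨a + 1, h⟩ (by simpa using h2)]
      apply le_of_lt
      exact low_lt_low hK (hd i ⟨a + 1 + i, h2⟩ (by rw [Fin.lt_def]; simp only; omega)) (hm _) (hm i)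
    · have h3 : (a : ℕ) + 1 + i - K < K := by omega
      rw [st_of_ge _ _ _ ⟨a + 1, h⟩ (by simpa using h2) (by simpa using h3)]
      exact (low_lt_low hK (hde _ _) (hx _ (by rw [Fin.lt_def]; simp only; omega)) (hm i)).le
  · have e1 : a.succ = Fin.last K := by ext; simp; omega
    rw [e1, ← hz0, ← hI.2.1 z, h0] at ha
    exact absurd ha (not_lt.mpr (low_lt_low hK (hde _ _) ht (hm i)).le)

theorem conn_A2 (hK : 1 ≤ K) (hπ : ∀ a : Fin K, π a.succ < π 0) (d e : Fin K → ℕ)
    (hde : ∀ a b, d a < e b) {m : Fin K → I}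
    (hm : ∀ a, m a ∈ lowI K (d a)) (i : Fin K) (x : Fin K → I) (t : I)
    (ht : t ∈ lowI K (e i)) :
    ¬ Iso π (win (st m x i) t) := by
  intro hI
  rw [iso_win_iff] at hI
  set z : Fin K := ⟨0, by omega⟩ with hz
  have hz0 : z.castSucc = 0 := by ext; simp [hz]
  have h0 : st m x i z = m i := by
    have h : (z : ℕ) + i < K := by simp [hz]
    rw [st_of_lt _ _ _ _ h]
    congr 1; ext; simp [hz]
  have h1 : st m x i z < t := by rw [h0]; exact low_lt_low hK (hde _ _) (hm i) ht
  have h2 := (hI.2.1 z).mp h1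
  have h3 := hπ ⟨K - 1, by omega⟩
  have e1 : (⟨K - 1, by omega⟩ : Fin K).succ = Fin.last K := by ext; simp; omega
  rw [e1, ← hz0] at h3
  exact absurd h2 (not_lt.mpr h3.le)

theorem conn_B (hK : 2 ≤ K) (hπ : CaseB π) (d e : Fin K → ℕ)
    (hd : ∀ a b, a < b → d b < d a)
    (he : ∀ a b, a < b → e a < e b) {m : Fin K → I}
    (hm : ∀ a, m a ∈ lowI K (d a)) (i : Fin K) (x : Fin K → I) (t : I)
    (hx : ∀ a, a < i → x a ∈ highI K (e a)) (ht : t ∈ highI K (e i)) :
    ¬ Iso π (win (st m x i) t) := by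
  intro hI
  rw [iso_win_iff] at hI
  rcases Nat.eq_zero_or_pos (i : ℕ) with hi | hi
  · -- `i = 0`
    have h1 : st m x i ⟨1, by omega⟩ < st m x i ⟨0, by omega⟩ := by
      rw [st_of_lt _ _ _ ⟨1, by omega⟩ (by simp only; omega),
        st_of_lt _ _ _ ⟨0, by omega⟩ (by simp only; omega)]
      exact low_lt_low (by omega) (hd _ _ (by rw [Fin.lt_def]; simp only; omega)) (hm _) (hm _)
    have h2 := (hI.1 _ _).mp h1
    have h3 := hπ.1 ⟨0, by omega⟩
    have e1 : (⟨1, by omega⟩ : Fin K).castSucc = (⟨0, by omega⟩ : Fin K).succ := by ext; simp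
    have e2 : (⟨0, by omega⟩ : Fin K).castSucc = 0 := by ext; simp
    rw [e1, e2] at h2
    exact absurd h2 (not_lt.mpr h3.le)
  · have hz : K - (i : ℕ) < K := by omega
    have h1 : t < st m x i ⟨K - i, hz⟩ := by
      rw [st_of_ge _ _ _ ⟨K - i, hz⟩ (by simp only; omega) (by simp only; omega)]
      have h3 : (⟨K - (i : ℕ) + i - K, by omega⟩ : Fin K) < i := by
        rw [Fin.lt_def]; simp only; omega
      exact high_lt_high (by omega) (he _ _ h3) (hx _ h3) ht
    have h2 := (hI.2.2 _).mp h1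
    exact absurd h2 (not_lt.mpr (hπ.2 _).le)

theorem revPat_last : revPat π (Fin.last K) = π 0 := by
  rw [revPat_apply, Fin.rev_last]

theorem revPat_castSucc (a : Fin K) : revPat π a.castSucc = π a.rev.succ := by
  rw [revPat_apply, Fin.rev_castSucc]

theorem not_spec1 (hK : 2 ≤ K) (h : CaseA π ∨ CaseB π) : ¬ Spec1 π := by
  rintro ⟨_, h2⟩
  rcases h with h | h
  · obtain ⟨⟨a, ha⟩, _⟩ := h
    exact absurd ha (not_lt.mpr (h2 a).le)
  · have h3 := h2 ⟨0, by omega⟩
    exact absurd (h.2 _) (not_lt.mpr h3.le)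

theorem not_spec1_rev (hK : 2 ≤ K) (h : CaseA π ∨ CaseB π) : ¬ Spec1 (revPat π) := by
  rintro ⟨h1, h2⟩
  rcases h with h | h
  · obtain ⟨_, ⟨a, ha⟩⟩ := h
    have h3 := h2 a.rev
    rw [revPat_last, revPat_castSucc, Fin.rev_rev] at h3
    exact absurd ha (not_lt.mpr h3.le)
  · have h3 := h1 ⟨0, by omega⟩ ⟨1, by omega⟩ (by rw [Fin.lt_def]; simp)
    rw [revPat_castSucc, revPat_castSucc] at h3
    have e1 : (⟨0, by omega⟩ : Fin K).rev.succ = Fin.last K := by
      ext; simp; omega
    have e2 : (⟨1, by omega⟩ : Fin K).rev.succ = (⟨K - 1, by omega⟩ : Fin K).castSucc := by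
      ext; simp; omega
    rw [e1, e2] at h3
    exact absurd (h.2 _) (not_lt.mpr h3.le)

/-- The box `E` used in the minorization: the forward and the backward windows are allowed. -/
theorem exists_boxes (hK : 2 ≤ K) (h : CaseA π ∨ CaseB π) :
    ∃ D E : Fin K → Set I, (∀ a, MeasurableSet (D a)) ∧ (∀ a, MeasurableSet (E a)) ∧
      (∀ a, volume (D a) ≠ 0) ∧ (∀ a, volume (E a) ≠ 0) ∧
      (∀ m ∈ Mid K (1 / 4) K, ∀ (i : Fin K) (x : Fin K → I) (t : I),
        (∀ a, a < i → x a ∈ D a) → t ∈ D i → ¬ Iso π (win (st m x i) t)) ∧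
      (∀ m, (∀ a, m a ∈ D a) → ∀ (i : Fin K) (x : Fin K → I) (t : I),
        (∀ a, a < i → x a ∈ E a) → t ∈ E i → ¬ Iso π (win (st m x i) t)) ∧
      (∀ m ∈ Mid K (1 / 4) K, ∀ (i : Fin K) (x : Fin K → I) (t : I),
        (∀ a, a < i → x a ∈ E a.rev) → t ∈ E i.rev → ¬ Iso (revPat π) (win (st m x i) t)) := by
  have hK1 : 1 ≤ K := by omega
  rcases h with h | h
  · obtain ⟨hl, hf⟩ := h
    have hl' : ∃ a : Fin K, revPat π a.castSucc < revPat π (Fin.last K) := by
      obtain ⟨a, ha⟩ := hf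
      refine ⟨a.rev, ?_⟩
      rw [revPat_last, revPat_castSucc, Fin.rev_rev]
      exact ha
    by_cases hmax : ∃ a : Fin K, π 0 < π a.succ
    · -- `E` below `D`
      refine ⟨fun a => lowI K (2 * K - 1 - a), fun a => lowI K a, fun a => measurableSet_lowI _,
        fun a => measurableSet_lowI _, fun a => volume_lowI hK1 (by omega),
        fun a => volume_lowI hK1 (by have := a.2; omega), ?_, ?_, ?_⟩
      · intro m hm i x t hx ht
        exact to_low π hK1 hl (fun a => 2 * K - 1 - a)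
          (fun a b hab => by rw [Fin.lt_def] at hab; have := b.2; omega)
          (fun a => by omega) hm i x t hx ht
      · intro m hm i x t hx ht
        exact conn_A1 π hK1 hmax (fun a => 2 * K - 1 - a) (fun a => a)
          (fun a b hab => by rw [Fin.lt_def] at hab; have := b.2; omega)
          (fun a b => by have := a.2; have := b.2; omega) hm i x t hx ht
      · intro m hm i x t hx ht
        exact to_low (revPat π) hK1 hl' (fun a => (a.rev : ℕ))
          (fun a b hab => by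
            have := Fin.rev_lt_rev.mpr hab
            rw [Fin.lt_def] at this; exact this)
          (fun a => by have := a.rev.2; omega) hm i x t hx ht
    · -- `E` above `D`
      push Not at hmax
      have hmax' : ∀ a : Fin K, π a.succ < π 0 := fun a =>
        lt_of_le_of_ne (hmax a) (fun h => by
          have := π.injective h
          exact absurd this (Fin.succ_ne_zero a))
      refine ⟨fun a => lowI K (K - 1 - a), fun a => lowI K (K + a), fun a => measurableSet_lowI _,
        fun a => measurableSet_lowI _, fun a => volume_lowI hK1 (by omega),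
        fun a => volume_lowI hK1 (by have := a.2; omega), ?_, ?_, ?_⟩
      · intro m hm i x t hx ht
        exact to_low π hK1 hl (fun a => K - 1 - a)
          (fun a b hab => by rw [Fin.lt_def] at hab; have := b.2; omega)
          (fun a => by omega) hm i x t hx ht
      · intro m hm i x t hx ht
        exact conn_A2 π hK1 hmax' (fun a => K - 1 - a) (fun a => K + a)
          (fun a b => by have := a.2; omega) hm i x t ht
      · intro m hm i x t hx ht
        exact to_low (revPat π) hK1 hl' (fun a => K + (a.rev : ℕ))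
          (fun a b hab => by
            have := Fin.rev_lt_rev.mpr hab
            rw [Fin.lt_def] at this; omega)
          (fun a => by have := a.rev.2; omega) hm i x t hx ht
  · have hl : ∃ a : Fin K, π a.castSucc < π (Fin.last K) := ⟨⟨0, by omega⟩, h.2 _⟩
    have hl' : ∃ a : Fin K, revPat π (Fin.last K) < revPat π a.castSucc := by
      refine ⟨⟨0, by omega⟩, ?_⟩
      rw [revPat_last, revPat_castSucc]
      exact h.1 _
    refine ⟨fun a => lowI K (K - 1 - a), fun a => highI K a, fun a => measurableSet_lowI _,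
        fun a => measurableSet_highI _, fun a => volume_lowI hK1 (by omega),
        fun a => volume_highI hK1 (by have := a.2; omega), ?_, ?_, ?_⟩
    · intro m hm i x t hx ht
      exact to_low π hK1 hl (fun a => K - 1 - a)
        (fun a b hab => by rw [Fin.lt_def] at hab; have := b.2; omega)
        (fun a => by omega) hm i x t hx ht
    · intro m hm i x t hx ht
      exact conn_B π hK h (fun a => K - 1 - a) (fun a => a)
        (fun a b hab => by rw [Fin.lt_def] at hab; have := b.2; omega)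
        (fun a b hab => by rw [Fin.lt_def] at hab; exact hab) hm i x t hx ht
    · intro m hm i x t hx ht
      exact to_high (revPat π) hK1 hl' (fun a => (a.rev : ℕ))
        (fun a b hab => by
          have := Fin.rev_lt_rev.mpr hab
          rw [Fin.lt_def] at this; exact this)
        (fun a => by have := a.rev.2; omega) hm i x t hx ht

theorem volume_box_ne_zero {B : Fin K → Set I} (hB : ∀ a, volume (B a) ≠ 0) :
    volume (Set.univ.pi B) ≠ 0 := by
  rw [volume_pi_pi]
  exact Finset.prod_ne_zero_iff.mpr (fun a _ => hB a)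

/-- **Minorization** in both directions. -/
theorem minorization (hK : 2 ≤ K) (hπ : CaseA π ∨ CaseB π) :
    ∃ (E : Set (Fin K → I)) (c : ℝ≥0∞), MeasurableSet E ∧ c ≠ 0 ∧ c ≠ ⊤ ∧
      (∀ f : (Fin K → I) → ℝ≥0∞, Measurable f → ∀ y,
        c * h π 2 y * ∫⁻ z in E, f z ≤ (T π)^[3 * K + 3] f y) ∧
      (∀ y, c * (TB π)^[2] (fun _ => 1) y ≤ (TB π)^[2 * K + 3] (ind E) y) := by
  obtain ⟨D, E, hDm, hEm, hD0, hE0, h1, h2, h3⟩ := exists_boxes π hK hπ
  obtain ⟨c1, hc10, hc1t, hesc⟩ := escape_mid π hK (not_spec1 π hK hπ)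
  obtain ⟨c2, hc20, hc2t, hesc'⟩ := escape_mid (revPat π) hK (not_spec1_rev π hK hπ)
  set vD := volume (Set.univ.pi D) with hvD
  have hvD0 : vD ≠ 0 := volume_box_ne_zero hD0
  have hvDt : vD ≠ ⊤ := measure_ne_top _ _
  set Er : Fin K → Set I := fun a => E a.rev with hEr
  set vE := volume (Set.univ.pi Er) with hvE
  have hvE0 : vE ≠ 0 := volume_box_ne_zero (fun a => hE0 _)
  have hvEt : vE ≠ ⊤ := measure_ne_top _ _
  refine ⟨Set.univ.pi E, min (c1 * vD) (c2 * vE), MeasurableSet.univ_pi hEm, ?_, ?_, ?_, ?_⟩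
  · rw [ne_eq, min_eq_iff]
    push Not
    exact ⟨fun h => absurd h (mul_ne_zero hc10 hvD0), fun h => absurd h (mul_ne_zero hc20 hvE0)⟩
  · exact ne_top_of_le_ne_top (ENNReal.mul_ne_top hc1t hvDt) (min_le_left _ _)
  · intro f hf y
    have e : 3 * K + 3 = (K + 3) + (K + K) := by ring
    rw [e, Function.iterate_add_apply (T π) (K + 3) (K + K), Function.iterate_add_apply (T π) K K]
    have hKf : Measurable ((T π)^[K] f) := measurable_T_iter π hf K
    have s1 : ∀ z ∈ Set.univ.pi D, ∫⁻ w in Set.univ.pi E, f w ≤ (T π)^[K] f z := by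
      intro z hz
      exact T_iter_K_ge π hf z E hEm (h2 z (fun a => hz a (Set.mem_univ a)))
    have s2 : ∀ m ∈ Mid K (1 / 4) K, (vD * ∫⁻ w in Set.univ.pi E, f w) ≤
        (T π)^[K] ((T π)^[K] f) m := by
      intro m hm
      refine le_trans ?_ (T_iter_K_ge π hKf m D hDm (h1 m hm))
      rw [mul_comm, ← setLIntegral_const]
      exact setLIntegral_mono' (MeasurableSet.univ_pi hDm) s1
    calc min (c1 * vD) (c2 * vE) * h π 2 y * ∫⁻ z in Set.univ.pi E, f z
        ≤ (c1 * vD) * h π 2 y * ∫⁻ z in Set.univ.pi E, f z := by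
          gcongr
          exact min_le_left _ _
      _ = (vD * ∫⁻ w in Set.univ.pi E, f w) * (c1 * h π 2 y) := by ring
      _ ≤ (vD * ∫⁻ w in Set.univ.pi E, f w) * (T π)^[K + 3] (ind (Mid K (1 / 4) K)) y := by
          gcongr
          exact hesc y
      _ = (T π)^[K + 3] (fun z => (vD * ∫⁻ w in Set.univ.pi E, f w) *
            ind (Mid K (1 / 4) K) z) y := by
          rw [T_iter_const_mul π (measurable_ind (measurableSet_Mid _ _))]
      _ ≤ _ := by
          apply T_iter_mono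
          intro z
          by_cases hz : z ∈ Mid K (1 / 4) K
          · rw [ind_of_mem hz, mul_one]; exact s2 z hz
          · rw [ind_of_notMem hz, mul_zero]; exact bot_le
  · intro y
    have e : 2 * K + 3 = (K + 3) + K := by ring
    rw [TB_iter_eq, TB_iter_eq, e, Function.iterate_add_apply (T (revPat π)) (K + 3) K]
    set g : (Fin K → I) → ℝ≥0∞ := fun z => ind (Set.univ.pi E) (fun a => z a.rev) with hg
    have hrevm : Measurable (fun z : Fin K → I => fun a : Fin K => z a.rev) :=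
      measurable_pi_lambda _ (fun a => measurable_pi_apply _)
    have hgm : Measurable g := (measurable_ind (MeasurableSet.univ_pi hEm)).comp hrevm
    have s2 : ∀ m ∈ Mid K (1 / 4) K, vE ≤ (T (revPat π))^[K] g m := by
      intro m hm
      refine le_trans ?_ (T_iter_K_ge (revPat π) hgm m Er (fun a => hEm _) (h3 m hm))
      have : ∫⁻ z in Set.univ.pi Er, g z = ∫⁻ z in Set.univ.pi Er, 1 := by
        apply setLIntegral_congr_fun (MeasurableSet.univ_pi (fun a => hEm _))
        intro z hz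
        simp only [hg]
        apply ind_of_mem
        intro a _
        have := hz a.rev (Set.mem_univ _)
        simpa [hEr] using this
      rw [this, setLIntegral_one]
    calc min (c1 * vD) (c2 * vE) * (T (revPat π))^[2] (fun _ => 1) (fun a => y a.rev)
        ≤ (c2 * vE) * h (revPat π) 2 (fun a => y a.rev) := by
          gcongr
          · exact min_le_right _ _
          · exact le_refl _
      _ = vE * (c2 * h (revPat π) 2 (fun a => y a.rev)) := by ring
      _ ≤ vE * (T (revPat π))^[K + 3] (ind (Mid K (1 / 4) K)) (fun a => y a.rev) := by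
          gcongr
          exact hesc' _
      _ = (T (revPat π))^[K + 3] (fun z => vE * ind (Mid K (1 / 4) K) z) (fun a => y a.rev) := by
          rw [T_iter_const_mul (revPat π) (measurable_ind (measurableSet_Mid _ _))]
      _ ≤ _ := by
          apply T_iter_mono
          intro z
          by_cases hz : z ∈ Mid K (1 / 4) K
          · rw [ind_of_mem hz, mul_one]; exact s2 z hz
          · rw [ind_of_notMem hz, mul_zero]; exact bot_le

end lemmas

end Pool.Agent.Lib.H8.CP
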