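import Pool.Agent.Lib.H8.CP.Connect

/-!
# Contraction of the ratios `h (j+1) / h j`
-/

open MeasureTheory unitInterval
open scoped ENNReal

namespace Pool.Agent.Lib.H8.CP

variable {K : ℕ} (π : Equiv.Perm (Fin (K + 1)))

/-- Positivity propagates. -/
theorem T_pos (hK : 1 ≤ K) {f : (Fin K → I) → ℝ≥0∞} (hf : Measurable f)
    (hpos : ∀ z : Fin K → I, 0 < z ⟨K - 1, by omega⟩ → z ⟨K - 1, by omega⟩ < 1 → f z ≠ 0)
    (y : Fin K → I) (h0 : 0 < y ⟨K - 1, by omega⟩) (h1 : y ⟨K - 1, by omega⟩ < 1) :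
    T π f y ≠ 0 := by
  classical
  -- a set of allowed letters of positive measure
  obtain ⟨A, hA, hA0, hA1, hA2⟩ : ∃ A : Set I, MeasurableSet A ∧ 0 < volume A ∧
      (∀ t ∈ A, ¬ Iso π (win y t)) ∧ ∀ t ∈ A, 0 < t ∧ t < 1 := by
    rcases side π y ⟨K - 1, by omega⟩ with h | h
    · refine ⟨Set.Ioo (y ⟨K - 1, by omega⟩) 1, measurableSet_Ioo, ?_, ?_, ?_⟩
      · rw [unitInterval.volume_Ioo]
        have : (y ⟨K - 1, by omega⟩ : ℝ) < (1 : I) := h1
        simpa using this
      · intro t ht; exact h t ht.1.le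
      · intro t ht; exact ⟨lt_trans h0 ht.1, ht.2⟩
    · refine ⟨Set.Ioo 0 (y ⟨K - 1, by omega⟩), measurableSet_Ioo, ?_, ?_, ?_⟩
      · rw [unitInterval.volume_Ioo]
        have : ((0 : I) : ℝ) < y ⟨K - 1, by omega⟩ := h0
        simpa using this
      · intro t ht; exact h t ht.2.le
      · intro t ht; exact ⟨ht.1, lt_trans ht.2 h1⟩
  have hm : Measurable (fun t : I => if Iso π (win y t) then 0 else f (nxt y t)) :=
    measurable_T_section π hf y
  have h2 : 0 < ∫⁻ t in A, (if Iso π (win y t) then 0 else f (nxt y t)) := by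
    rw [setLIntegral_pos_iff hm]
    refine lt_of_lt_of_le hA0 (measure_mono ?_)
    intro t ht
    refine ⟨?_, ht⟩
    rw [Function.mem_support, if_neg (hA1 t ht)]
    apply hpos
    · rw [nxt_of_eq y t ⟨K - 1, by omega⟩ (by simp only; omega)]; exact (hA2 t ht).1
    · rw [nxt_of_eq y t ⟨K - 1, by omega⟩ (by simp only; omega)]; exact (hA2 t ht).2
  exact (lt_of_lt_of_le h2 (setLIntegral_le_lintegral A _)).ne'

theorem h_pos (hK : 1 ≤ K) (j : ℕ) (y : Fin K → I) (h0 : 0 < y ⟨K - 1, by omega⟩)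
    (h1 : y ⟨K - 1, by omega⟩ < 1) : h π j y ≠ 0 := by
  induction j generalizing y with
  | zero => rw [h_zero]; exact one_ne_zero
  | succ j ih =>
    rw [h_succ]
    exact T_pos π hK (measurable_h π j) ih y h0 h1

theorem ae_last (hK : 1 ≤ K) : ∀ᵐ y : Fin K → I, 0 < y ⟨K - 1, by omega⟩ ∧ y ⟨K - 1, by omega⟩ < 1 := by
  have key : ∀ c : I, ∀ᵐ y : Fin K → I, y ⟨K - 1, by omega⟩ ≠ c := by
    intro c
    have h1 : ∀ᵐ t : I, t ≠ c := by
      rw [ae_iff]; simp
    exact (measurePreserving_eval (fun _ : Fin K => (volume : Measure I))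
      ⟨K - 1, by omega⟩).quasiMeasurePreserving.ae h1
  filter_upwards [key 0, key 1] with y h0 h1
  exact ⟨lt_of_le_of_ne (unitInterval.nonneg' ) h0.symm, lt_of_le_of_ne unitInterval.le_one' h1⟩

theorem lintegral_h_ne_zero (hK : 1 ≤ K) (j : ℕ) : ∫⁻ z : Fin K → I, h π j z ≠ 0 := by
  rw [ne_eq, lintegral_eq_zero_iff (measurable_h π j)]
  intro hcon
  have h1 : ∀ᵐ y : Fin K → I, False := by
    filter_upwards [hcon, ae_last hK] with y h2 h3
    exact h_pos π hK j y h3.1 h3.2 h2
  have h2 : (volume : Measure (Fin K → I)) Set.univ = 0 := by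
    rw [ae_iff] at h1
    simp at h1
  rw [measure_univ] at h2
  exact one_ne_zero h2

section contraction

variable {E : Set (Fin K → I)} {c : ℝ≥0∞} (hE : MeasurableSet E)
  (hmin : ∀ f : (Fin K → I) → ℝ≥0∞, Measurable f → ∀ y,
        c * h π 2 y * ∫⁻ z in E, f z ≤ (T π)^[3 * K + 3] f y)

include hmin in
theorem key_ineq {F1 F2 : (Fin K → I) → ℝ≥0∞} (h1 : Measurable F1) (h2 : Measurable F2)
    (hle : ∀ z, F1 z ≤ F2 z) (y : Fin K → I) :
    (T π)^[3 * K + 3] F1 y + c * h π 2 y * (∫⁻ z in E, F2 z) ≤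
      (T π)^[3 * K + 3] F2 y + c * h π 2 y * (∫⁻ z in E, F1 z) := by
  set G : (Fin K → I) → ℝ≥0∞ := fun z => F2 z - F1 z with hG
  have hGm : Measurable G := h2.sub h1
  have e : F2 = fun z => F1 z + G z := by
    funext z
    simp only [hG]
    rw [add_tsub_cancel_of_le (hle z)]
  have e1 : (T π)^[3 * K + 3] F2 y = (T π)^[3 * K + 3] F1 y + (T π)^[3 * K + 3] G y := by
    conv_lhs => rw [e]
    rw [T_iter_add π h1]
  have e2 : ∫⁻ z in E, F2 z = (∫⁻ z in E, F1 z) + ∫⁻ z in E, G z := by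
    conv_lhs => rw [e]
    rw [lintegral_add_left h1]
  rw [e1, e2, mul_add]
  have h3 := hmin G hGm y
  calc (T π)^[3 * K + 3] F1 y + (c * h π 2 y * (∫⁻ z in E, F1 z) + c * h π 2 y * ∫⁻ z in E, G z)
      = (T π)^[3 * K + 3] F1 y + c * h π 2 y * (∫⁻ z in E, G z) +
        c * h π 2 y * ∫⁻ z in E, F1 z := by ring
    _ ≤ _ := by gcongr

variable (hback : ∀ y, c * (TB π)^[2] (fun _ => 1) y ≤ (TB π)^[2 * K + 3] (ind E) y)

include hE hback in
/-- Harnack inequality. -/
theorem harnack (j : ℕ) :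
    c * ∫⁻ z, h π (j + 2) z ≤ ∫⁻ z in E, h π (j + (2 * K + 3)) z := by
  have h1 : ∫⁻ z in E, h π (j + (2 * K + 3)) z = ∫⁻ z, ind E z * (T π)^[2 * K + 3] (h π j) z := by
    rw [← lintegral_indicator hE]
    apply lintegral_congr
    intro z
    rw [add_comm j, h_add]
    by_cases hz : z ∈ E
    · rw [Set.indicator_of_mem hz, ind_of_mem hz, one_mul]
    · rw [Set.indicator_of_notMem hz, ind_of_notMem hz, zero_mul]
  rw [h1, adjoint_iter π (measurable_h π j) (measurable_ind hE)]
  have h2 : ∫⁻ z, h π (j + 2) z = ∫⁻ z, (TB π)^[2] (fun _ => 1) z * h π j z := by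
    rw [← adjoint_iter π (measurable_h π j) measurable_const, add_comm j 2, h_add]
    apply lintegral_congr
    intro z
    rw [one_mul]
  rw [h2, ← lintegral_const_mul c (f := fun z => (TB π)^[2] (fun _ => 1) z * h π j z)
    ((measurable_TB_iter π measurable_const 2).mul (measurable_h π j))]
  apply lintegral_mono
  intro z
  dsimp only
  rw [← mul_assoc]
  gcongr
  exact hback z

include hE hback in
theorem R3 (j : ℕ) (y : Fin K → I) :
    c * h π (j + (2 * K + 3) + (3 * K + 3)) y ≤ h π 2 y * ∫⁻ z in E, h π (j + (2 * K + 3)) z := by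
  have h1 : ∀ z, h π (j + (2 * K + 3)) z ≤ ∫⁻ w, h π (j + 2) w := by
    intro z
    refine (h_antitone π (show K + (j + 2) ≤ j + (2 * K + 3) by omega) z).trans ?_
    rw [h_add]
    exact T_iter_K_le π (measurable_h π _) z
  have h2 : h π (j + (2 * K + 3) + (3 * K + 3)) y ≤ h π 2 y * ∫⁻ w, h π (j + 2) w := by
    refine (h_antitone π (show 2 + (j + (2 * K + 3)) ≤ j + (2 * K + 3) + (3 * K + 3) by omega) y).trans ?_
    rw [h_add]
    refine (T_iter_mono π (g := fun z => (∫⁻ w, h π (j + 2) w) * 1) (fun z => by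
      rw [mul_one]; exact h1 z) 2 y).trans ?_
    rw [T_iter_const_mul π measurable_const, mul_comm]
    exact le_refl _
  calc c * h π (j + (2 * K + 3) + (3 * K + 3)) y ≤ c * (h π 2 y * ∫⁻ w, h π (j + 2) w) := by gcongr
    _ = h π 2 y * (c * ∫⁻ w, h π (j + 2) w) := by ring
    _ ≤ _ := by gcongr; exact harnack π hE hback j

include hE hback in
theorem lintegral_E_two_ne_zero (hK : 1 ≤ K) (hc : c ≠ 0) : ∫⁻ z in E, h π 2 z ≠ 0 := by
  have h1 := harnack π hE hback 0
  have h2 : ∫⁻ z in E, h π (0 + (2 * K + 3)) z ≤ ∫⁻ z in E, h π 2 z := by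
    apply lintegral_mono
    intro z
    exact h_antitone π (by omega) z
  have h3 : c * ∫⁻ z, h π (0 + 2) z ≠ 0 := mul_ne_zero hc (lintegral_h_ne_zero π hK _)
  intro h4
  rw [h4] at h2
  exact h3 (le_antisymm (h1.trans h2) bot_le)

include hmin in
theorem R4 (j : ℕ) :
    c * (∫⁻ z in E, h π 2 z) * ∫⁻ z in E, h π j z ≤ ∫⁻ z in E, h π (j + 1) z := by
  calc c * (∫⁻ z in E, h π 2 z) * ∫⁻ z in E, h π j z
      = ∫⁻ z in E, (c * h π 2 z * ∫⁻ z in E, h π j z) := by
        rw [lintegral_mul_const _ ((measurable_h π 2).const_mul c),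
          lintegral_const_mul _ (measurable_h π 2)]
    _ ≤ ∫⁻ z in E, h π (3 * K + 3 + j) z := by
        apply lintegral_mono
        intro z
        dsimp only
        rw [h_add]
        exact hmin _ (measurable_h π j) z
    _ ≤ _ := by
        apply lintegral_mono
        intro z
        exact h_antitone π (by omega) z

theorem lintegral_E_ne_top (j : ℕ) : ∫⁻ z in E, h π j z ≠ ⊤ := by
  have h1 : ∫⁻ z in E, h π j z ≤ ∫⁻ z in E, (1 : ℝ≥0∞) := lintegral_mono (fun z => h_le_one π j z)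
  rw [setLIntegral_one] at h1
  exact ne_top_of_le_ne_top (measure_ne_top _ _) h1

/-- The bounds at stage `j`. -/
def Valid (j : ℕ) (a b : ℝ) : Prop :=
  ∀ y, ENNReal.ofReal a * h π j y ≤ h π (j + 1) y ∧ h π (j + 1) y ≤ ENNReal.ofReal b * h π j y

theorem Valid.succ {j : ℕ} {a b : ℝ} (hv : Valid π j a b) : Valid π (j + 1) a b := by
  intro y
  constructor
  · rw [h_succ π (j + 1)]
    calc ENNReal.ofReal a * h π (j + 1) y = T π (fun z => ENNReal.ofReal a * h π j z) y := by
          rw [T_const_mul π (measurable_h π j), h_succ]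
      _ ≤ _ := T_mono π (fun z => (hv z).1) y
  · rw [h_succ π (j + 1)]
    calc T π (h π (j + 1)) y ≤ T π (fun z => ENNReal.ofReal b * h π j z) y :=
          T_mono π (fun z => (hv z).2) y
      _ = _ := by rw [T_const_mul π (measurable_h π j), h_succ]

theorem Valid.mono {i j : ℕ} (hij : i ≤ j) {a b : ℝ} (hv : Valid π i a b) : Valid π j a b := by
  induction j, hij using Nat.le_induction with
  | base => exact hv
  | succ j _ ih => exact ih.succ

theorem valid_zero : Valid π 0 0 1 := by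
  intro y
  constructor
  · simp
  · simpa using h_succ_le π 0 y

theorem valid_real {j : ℕ} {a b : ℝ} (ha : 0 ≤ a) (hb : 0 ≤ b) :
    Valid π j a b ↔ ∀ y, a * (h π j y).toReal ≤ (h π (j + 1) y).toReal ∧
      (h π (j + 1) y).toReal ≤ b * (h π j y).toReal := by
  unfold Valid
  refine forall_congr' fun y => ?_
  have e1 : a * (h π j y).toReal = (ENNReal.ofReal a * h π j y).toReal := by
    rw [ENNReal.toReal_mul, ENNReal.toReal_ofReal ha]
  have e2 : b * (h π j y).toReal = (ENNReal.ofReal b * h π j y).toReal := by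
    rw [ENNReal.toReal_mul, ENNReal.toReal_ofReal hb]
  rw [e1, e2, ENNReal.toReal_le_toReal (ENNReal.mul_ne_top ENNReal.ofReal_ne_top (h_ne_top π j y))
    (h_ne_top π _ y), ENNReal.toReal_le_toReal (h_ne_top π _ y)
    (ENNReal.mul_ne_top ENNReal.ofReal_ne_top (h_ne_top π j y))]

include hE hmin hback in
/-- One contraction step. -/
theorem contraction_step (hK : 1 ≤ K) (hc0 : c ≠ 0) (hct : c ≠ ⊤) :
    ∃ κ θ : ℝ, 0 < κ ∧ κ < 1 ∧ 0 < θ ∧ ∀ (j : ℕ) (a b : ℝ), 2 * K + 3 ≤ j → 0 ≤ a → a ≤ b →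
      Valid π j a b → ∃ a' b', 0 ≤ a' ∧ a' ≤ b' ∧ κ * θ ≤ a' ∧ b' - a' ≤ (1 - κ) * (b - a) ∧
        Valid π (j + (3 * K + 3)) a' b' := by
  set c' := c.toReal with hc'
  have hc'pos : 0 < c' := ENNReal.toReal_pos hc0 hct
  set κ := min (c' * c') (1 / 2) with hκ
  have hκ0 : 0 < κ := lt_min (by positivity) (by norm_num)
  have hκ1 : κ < 1 := lt_of_le_of_lt (min_le_right _ _) (by norm_num)
  have hκc : κ ≤ c' * c' := min_le_left _ _
  set u2 := (∫⁻ z in E, h π 2 z).toReal with hu2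
  have hu2pos : 0 < u2 := ENNReal.toReal_pos (lintegral_E_two_ne_zero π hE hback hK hc0)
    (lintegral_E_ne_top π 2)
  refine ⟨κ, c' * u2, hκ0, hκ1, by positivity, ?_⟩
  intro j a b hj ha hab hv
  set L : ℕ → ℝ := fun i => (∫⁻ z in E, h π i z).toReal with hL
  have hR4 : ∀ i, c' * u2 * L i ≤ L (i + 1) := by
    intro i
    have h1 := ENNReal.toReal_mono (lintegral_E_ne_top π (i + 1)) (R4 π hmin i)
    rw [ENNReal.toReal_mul, ENNReal.toReal_mul] at h1
    exact h1
  have hLpos : ∀ i, 0 < L i := by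
    intro i
    induction i with
    | zero =>
      have h1 : u2 ≤ L 0 := by
        apply ENNReal.toReal_mono (lintegral_E_ne_top π 0)
        apply lintegral_mono
        intro z
        exact h_antitone π (by omega) z
      linarith
    | succ i ih => exact lt_of_lt_of_le (by positivity) (hR4 i)
  have hb : 0 ≤ b := ha.trans hab
  have hvr := (valid_real π ha hb).mp hv
  -- ratio of the integrals
  set θ := L (j + 1) / L j with hθ
  have hθL : θ * L j = L (j + 1) := by rw [hθ, div_mul_cancel₀ _ (hLpos j).ne']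
  have hθa : a ≤ θ := by
    rw [hθ, le_div_iff₀ (hLpos j)]
    have h1 : ∫⁻ z in E, ENNReal.ofReal a * h π j z ≤ ∫⁻ z in E, h π (j + 1) z :=
      lintegral_mono (fun z => (hv z).1)
    rw [lintegral_const_mul _ (measurable_h π j)] at h1
    have h2 := ENNReal.toReal_mono (lintegral_E_ne_top π (j + 1)) h1
    rw [ENNReal.toReal_mul, ENNReal.toReal_ofReal ha] at h2
    exact h2
  have hθb : θ ≤ b := by
    rw [hθ, div_le_iff₀ (hLpos j)]
    have h1 : ∫⁻ z in E, h π (j + 1) z ≤ ∫⁻ z in E, ENNReal.ofReal b * h π j z :=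
      lintegral_mono (fun z => (hv z).2)
    rw [lintegral_const_mul _ (measurable_h π j)] at h1
    have h2 := ENNReal.toReal_mono (ENNReal.mul_ne_top ENNReal.ofReal_ne_top
      (lintegral_E_ne_top π j)) h1
    rw [ENNReal.toReal_mul, ENNReal.toReal_ofReal hb] at h2
    exact h2
  have hθθ : c' * u2 ≤ θ := by
    rw [hθ, le_div_iff₀ (hLpos j)]
    exact hR4 j
  refine ⟨a + κ * (θ - a), b - κ * (b - θ), by nlinarith, by nlinarith, by nlinarith, ?_, ?_⟩
  · apply le_of_eq; ring
  · rw [valid_real π (by nlinarith) (by nlinarith)]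
    intro y
    -- the three basic facts in real form
    have hfin : ∀ i, h π i y ≠ ⊤ := fun i => h_ne_top π i y
    have hLfin : ∀ i, ∫⁻ z in E, h π i z ≠ ⊤ := fun i => lintegral_E_ne_top π i
    have r3 : c' * (h π (j + (3 * K + 3)) y).toReal ≤ (h π 2 y).toReal * L j := by
      obtain ⟨i, rfl⟩ : ∃ i, j = i + (2 * K + 3) := ⟨j - (2 * K + 3), by omega⟩
      have h1 := ENNReal.toReal_mono (ENNReal.mul_ne_top (hfin 2) (hLfin _)) (R3 π hE hback i y)
      rw [ENNReal.toReal_mul, ENNReal.toReal_mul] at h1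
      exact h1
    have r1 : a * (h π (j + (3 * K + 3)) y).toReal + c' * (h π 2 y).toReal * L (j + 1) ≤
        (h π (j + (3 * K + 3) + 1) y).toReal + c' * (h π 2 y).toReal * (a * L j) := by
      have h1 := key_ineq π hmin (F1 := fun z => ENNReal.ofReal a * h π j z) (F2 := h π (j + 1))
        ((measurable_h π j).const_mul _) (measurable_h π _) (fun z => (hv z).1) y
      rw [T_iter_const_mul π (measurable_h π j), ← h_add, ← h_add,
        lintegral_const_mul _ (measurable_h π j)] at h1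
      dsimp only at h1
      have h2 := ENNReal.toReal_mono (by
        apply ENNReal.add_ne_top.mpr
        exact ⟨hfin _, ENNReal.mul_ne_top (ENNReal.mul_ne_top hct (hfin 2))
          (ENNReal.mul_ne_top ENNReal.ofReal_ne_top (hLfin j))⟩) h1
      rw [ENNReal.toReal_add (ENNReal.mul_ne_top ENNReal.ofReal_ne_top (hfin _))
        (ENNReal.mul_ne_top (ENNReal.mul_ne_top hct (hfin 2)) (hLfin _)),
        ENNReal.toReal_add (hfin _) (ENNReal.mul_ne_top (ENNReal.mul_ne_top hct (hfin 2))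
          (ENNReal.mul_ne_top ENNReal.ofReal_ne_top (hLfin j)))] at h2
      simp only [ENNReal.toReal_mul, ENNReal.toReal_ofReal ha] at h2
      have e1 : 3 * K + 3 + j = j + (3 * K + 3) := by ring
      have e2 : 3 * K + 3 + (j + 1) = j + (3 * K + 3) + 1 := by ring
      rw [e1, e2] at h2
      exact h2
    have r2 : (h π (j + (3 * K + 3) + 1) y).toReal + c' * (h π 2 y).toReal * (b * L j) ≤
        b * (h π (j + (3 * K + 3)) y).toReal + c' * (h π 2 y).toReal * L (j + 1) := by
      have h1 := key_ineq π hmin (F1 := h π (j + 1)) (F2 := fun z => ENNReal.ofReal b * h π j z)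
        (measurable_h π _) ((measurable_h π j).const_mul _) (fun z => (hv z).2) y
      rw [T_iter_const_mul π (measurable_h π j), ← h_add, ← h_add,
        lintegral_const_mul _ (measurable_h π j)] at h1
      dsimp only at h1
      have h2 := ENNReal.toReal_mono (by
        apply ENNReal.add_ne_top.mpr
        exact ⟨ENNReal.mul_ne_top ENNReal.ofReal_ne_top (hfin _),
          ENNReal.mul_ne_top (ENNReal.mul_ne_top hct (hfin 2)) (hLfin _)⟩) h1
      rw [ENNReal.toReal_add (hfin _) (ENNReal.mul_ne_top (ENNReal.mul_ne_top hct (hfin 2))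
          (ENNReal.mul_ne_top ENNReal.ofReal_ne_top (hLfin j))),
        ENNReal.toReal_add (ENNReal.mul_ne_top ENNReal.ofReal_ne_top (hfin _))
        (ENNReal.mul_ne_top (ENNReal.mul_ne_top hct (hfin 2)) (hLfin _))] at h2
      simp only [ENNReal.toReal_mul, ENNReal.toReal_ofReal hb] at h2
      have e1 : 3 * K + 3 + j = j + (3 * K + 3) := by ring
      have e2 : 3 * K + 3 + (j + 1) = j + (3 * K + 3) + 1 := by ring
      rw [e1, e2] at h2
      exact h2
    set X := (h π (j + (3 * K + 3)) y).toReal with hX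
    set Y := (h π (j + (3 * K + 3) + 1) y).toReal with hY
    set U := (h π 2 y).toReal with hU
    have hX0 : 0 ≤ X := ENNReal.toReal_nonneg
    have hU0 : 0 ≤ U := ENNReal.toReal_nonneg
    have k1 : κ * X ≤ c' * (U * L j) := by
      calc κ * X ≤ c' * c' * X := by gcongr
        _ = c' * (c' * X) := by ring
        _ ≤ c' * (U * L j) := by gcongr
    constructor
    · have h3 : κ * X * (θ - a) ≤ c' * (U * L j) * (θ - a) := by
        apply mul_le_mul_of_nonneg_right k1; linarith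
      have h4 : c' * (U * L j) * (θ - a) = c' * U * L (j + 1) - c' * U * (a * L j) := by
        rw [← hθL]; ring
      nlinarith
    · have h3 : κ * X * (b - θ) ≤ c' * (U * L j) * (b - θ) := by
        apply mul_le_mul_of_nonneg_right k1; linarith
      have h4 : c' * (U * L j) * (b - θ) = c' * U * (b * L j) - c' * U * L (j + 1) := by
        rw [← hθL]; ring
      nlinarith

end contraction

/-- **Main bounds**: the ratios `h (j+1) / h j` converge uniformly and exponentially fast. -/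
theorem ratio_bounds (hK : 2 ≤ K) (hπ : CaseA π ∨ CaseB π) :
    ∃ ρ C α : ℝ, 0 < ρ ∧ ρ < 1 ∧ 0 < α ∧ 0 < C ∧ ∃ J0 : ℕ, ∀ j, J0 ≤ j → ∃ a b : ℝ,
      α ≤ a ∧ a ≤ b ∧ b - a ≤ C * ρ ^ j ∧ Valid π j a b := by
  obtain ⟨E, c, hE, hc0, hct, hmin, hback⟩ := minorization π hK hπ
  obtain ⟨κ, θ, hκ0, hκ1, hθ, hstep⟩ := contraction_step π hE hmin hback (by omega) hc0 hct
  set s := 3 * K + 3 with hs
  set d := 2 * K + 3 with hd
  have iter : ∀ i : ℕ, ∃ a b : ℝ, 0 ≤ a ∧ a ≤ b ∧ b - a ≤ (1 - κ) ^ (i + 1) ∧ κ * θ ≤ a ∧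
      Valid π (d + (i + 1) * s) a b := by
    intro i
    induction i with
    | zero =>
      obtain ⟨a, b, h1, h2, h3, h4, h5⟩ := hstep d 0 1 le_rfl le_rfl zero_le_one
        (Valid.mono π (Nat.zero_le d) (valid_zero π))
      refine ⟨a, b, h1, h2, ?_, h3, ?_⟩
      · simpa using h4
      · simpa using h5
    | succ i ih =>
      obtain ⟨a, b, h1, h2, h3, _, h5⟩ := ih
      obtain ⟨a', b', k1, k2, k3, k4, k5⟩ := hstep (d + (i + 1) * s) a b (by omega) h1 h2 h5
      refine ⟨a', b', k1, k2, ?_, k3, ?_⟩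
      · refine k4.trans ?_
        rw [pow_succ' (1 - κ) (i + 1)]
        apply mul_le_mul_of_nonneg_left h3; linarith
      · have e : d + (i + 1 + 1) * s = d + (i + 1) * s + s := by ring
        rw [e]; exact k5
  have hspos : 0 < s := by omega
  set ρ : ℝ := (1 - κ) ^ ((1 : ℝ) / s) with hρ
  have h1κ : 0 < 1 - κ := by linarith
  have hρ0 : 0 < ρ := Real.rpow_pos_of_pos h1κ _
  have hρ1 : ρ < 1 := Real.rpow_lt_one h1κ.le (by linarith) (by positivity)
  have hρs : ρ ^ s = 1 - κ := by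
    rw [hρ, ← Real.rpow_natCast, ← Real.rpow_mul h1κ.le]
    have : (1 : ℝ) / s * s = 1 := by field_simp
    rw [this, Real.rpow_one]
  refine ⟨ρ, (ρ ^ (d + s))⁻¹, κ * θ, hρ0, hρ1, by positivity, by positivity, d + s, ?_⟩
  intro j hj
  -- `j = d + (i+1) s + r`
  obtain ⟨i, r, hr, hij⟩ : ∃ i r, r < s ∧ j = d + (i + 1) * s + r := by
    refine ⟨(j - d - s) / s, (j - d - s) % s, Nat.mod_lt _ hspos, ?_⟩
    have h1 := Nat.div_add_mod (j - d - s) s
    have h2 : ((j - d - s) / s + 1) * s = s * ((j - d - s) / s) + s := by ring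
    rw [h2]; omega
  obtain ⟨a, b, h1, h2, h3, h4, h5⟩ := iter i
  refine ⟨a, b, h4, h2, h3.trans ?_, Valid.mono π (by omega) h5⟩
  rw [← hρs, ← pow_mul, inv_mul_eq_div, le_div_iff₀ (by positivity), ← pow_add]
  apply pow_le_pow_of_le_one hρ0.le hρ1.le
  have h6 : s * (i + 1) = (i + 1) * s := by ring
  omega

end Pool.Agent.Lib.H8.CP
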