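import Pool.Agent.Lib.H8.CP.Basic

/-!
# Escape to the middle
-/

open MeasureTheory unitInterval
open scoped ENNReal

namespace Pool.Agent.Lib.H8.CP

variable {K : ℕ}

/-- Indicator function of a set of states. -/
noncomputable def ind (S : Set (Fin K → I)) : (Fin K → I) → ℝ≥0∞ := S.indicator (fun _ => 1)

theorem ind_of_mem {S : Set (Fin K → I)} {y : Fin K → I} (h : y ∈ S) : ind S y = 1 := by
  simp [ind, h]

theorem ind_of_notMem {S : Set (Fin K → I)} {y : Fin K → I} (h : y ∉ S) : ind S y = 0 := by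
  simp [ind, h]

theorem ind_le_one (S : Set (Fin K → I)) (y : Fin K → I) : ind S y ≤ 1 := by
  by_cases h : y ∈ S
  · rw [ind_of_mem h]
  · rw [ind_of_notMem h]; exact bot_le

theorem ind_mono {S S' : Set (Fin K → I)} (h : S ⊆ S') (y : Fin K → I) : ind S y ≤ ind S' y := by
  by_cases h1 : y ∈ S
  · rw [ind_of_mem h1, ind_of_mem (h h1)]
  · rw [ind_of_notMem h1]; exact bot_le

/-- The states whose last `i` entries are at distance at most `r` from `1/2`. -/
def Mid (K : ℕ) (r : ℝ) (i : ℕ) : Set (Fin K → I) :=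
  {y | ∀ a : Fin K, K ≤ a + i → |(y a : ℝ) - 1 / 2| ≤ r}

theorem measurableSet_Mid (r : ℝ) (i : ℕ) : MeasurableSet (Mid K r i) := by
  have : Mid K r i = ⋂ a : Fin K, {y | K ≤ a + i → |(y a : ℝ) - 1 / 2| ≤ r} := by
    ext y; simp [Mid]
  rw [this]
  refine MeasurableSet.iInter fun a => ?_
  by_cases h : K ≤ a + i
  · simp only [h, true_imp_iff]
    apply measurableSet_le _ measurable_const
    exact ((measurable_subtype_coe.comp (measurable_pi_apply a)).sub_const _).abs
  · simp [h]

theorem measurable_ind {S : Set (Fin K → I)} (h : MeasurableSet S) : Measurable (ind S) :=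
  measurable_const.indicator h

theorem nxt_of_lt (y : Fin K → I) (t : I) (a : Fin K) (h : (a : ℕ) + 1 < K) :
    nxt y t a = y ⟨a + 1, h⟩ := by
  have : a.succ = (⟨a + 1, h⟩ : Fin K).castSucc := by ext; simp
  unfold nxt
  rw [this, win_castSucc]

theorem nxt_of_eq (y : Fin K → I) (t : I) (a : Fin K) (h : (a : ℕ) + 1 = K) :
    nxt y t a = t := by
  have : a.succ = Fin.last K := by ext; simp [h]
  unfold nxt
  rw [this, win_last]

theorem iso_win_iff (π : Equiv.Perm (Fin (K + 1))) (y : Fin K → I) (t : I) :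
    Iso π (win y t) ↔ (∀ a b : Fin K, y a < y b ↔ π a.castSucc < π b.castSucc) ∧
      (∀ a : Fin K, y a < t ↔ π a.castSucc < π (Fin.last K)) ∧
      (∀ a : Fin K, t < y a ↔ π (Fin.last K) < π a.castSucc) := by
  constructor
  · intro h
    refine ⟨fun a b => ?_, fun a => ?_, fun a => ?_⟩
    · simpa using h a.castSucc b.castSucc
    · simpa using h a.castSucc (Fin.last K)
    · simpa using h (Fin.last K) a.castSucc
  · rintro ⟨h1, h2, h3⟩ a b
    refine Fin.lastCases ?_ (fun a => ?_) a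
    · refine Fin.lastCases ?_ (fun b => ?_) b
      · simp
      · simpa using h3 b
    · refine Fin.lastCases ?_ (fun b => ?_) b
      · simpa using h2 a
      · simpa using h1 a b

section lemmas

variable (π : Equiv.Perm (Fin (K + 1)))

/-- Lower bound for the transfer operator. -/
theorem T_ge {f : (Fin K → I) → ℝ≥0∞} {y : Fin K → I} (A : Set I) (hA : MeasurableSet A) (c : ℝ≥0∞)
    (h1 : ∀ t ∈ A, ¬ Iso π (win y t)) (h2 : ∀ t ∈ A, c ≤ f (nxt y t)) :
    c * volume A ≤ T π f y := by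
  classical
  unfold T
  rw [← setLIntegral_const]
  refine (setLIntegral_mono' hA ?_).trans (setLIntegral_le_lintegral A _)
  intro t ht
  rw [if_neg (h1 t ht)]
  exact h2 t ht

/-- Near an entry of the state, one of the two sides is allowed. -/
theorem side (y : Fin K → I) (i : Fin K) :
    (∀ t, y i ≤ t → ¬ Iso π (win y t)) ∨ (∀ t, t ≤ y i → ¬ Iso π (win y t)) := by
  by_contra hcon
  push Not at hcon
  obtain ⟨⟨t1, h1, h2⟩, ⟨t2, h3, h4⟩⟩ := hcon
  rw [iso_win_iff] at h2 h4
  have a1 : ¬ (π (Fin.last K) < π i.castSucc) := fun h => absurd ((h2.2.2 i).mpr h) (not_lt.mpr h1)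
  have a2 : ¬ (π i.castSucc < π (Fin.last K)) := fun h => absurd ((h4.2.1 i).mpr h) (not_lt.mpr h3)
  have a3 : π i.castSucc = π (Fin.last K) := le_antisymm (not_lt.mp a1) (not_lt.mp a2)
  have a4 := π.injective a3
  exact absurd a4 (Fin.castSucc_lt_last i).ne

theorem maintain {r δ : ℝ} {i : ℕ} (hK : 1 ≤ K) (hi : 1 ≤ i) (hδ : 0 ≤ δ) (hr : r + δ ≤ 1 / 2)
    {y : Fin K → I} (hy : y ∈ Mid K r i) :
    ENNReal.ofReal δ ≤ T π (ind (Mid K (r + δ) (i + 1))) y := by
  set l : Fin K := ⟨K - 1, by omega⟩ with hl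
  have hm := hy l (by simp only [hl]; omega)
  rw [abs_le] at hm
  have hmem : ∀ t : I, |(t : ℝ) - y l| ≤ δ → nxt y t ∈ Mid K (r + δ) (i + 1) := by
    intro t ht a ha
    rcases Nat.lt_or_ge ((a : ℕ) + 1) K with h | h
    · rw [nxt_of_lt y t a h]
      refine (hy ⟨a + 1, h⟩ (by simp only; omega)).trans (by linarith)
    · rw [nxt_of_eq y t a (by omega)]
      rw [abs_le] at ht ⊢
      constructor <;> linarith [ht.1, ht.2, hm.1, hm.2]
  rcases side π y l with h | h
  · have hx : (y l : ℝ) + δ ∈ I := ⟨by linarith [hm.1], by linarith [hm.2]⟩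
    have h2 := T_ge π (f := ind (Mid K (r + δ) (i + 1))) (y := y) (Set.Icc (y l) ⟨(y l : ℝ) + δ, hx⟩)
      measurableSet_Icc 1 (fun t ht => h t ht.1) (fun t ht => by
        rw [ind_of_mem]
        apply hmem
        have h3 : (y l : ℝ) ≤ t := ht.1
        have h4 : (t : ℝ) ≤ y l + δ := ht.2
        rw [abs_le]; constructor <;> linarith)
    rw [unitInterval.volume_Icc, one_mul] at h2
    simpa using h2
  · have hx : (y l : ℝ) - δ ∈ I := ⟨by linarith [hm.1], by linarith [hm.2]⟩
    have h2 := T_ge π (f := ind (Mid K (r + δ) (i + 1))) (y := y) (Set.Icc ⟨(y l : ℝ) - δ, hx⟩ (y l))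
      measurableSet_Icc 1 (fun t ht => h t ht.2) (fun t ht => by
        rw [ind_of_mem]
        apply hmem
        have h3 : (t : ℝ) ≤ y l := ht.2
        have h4 : (y l : ℝ) - δ ≤ t := ht.1
        rw [abs_le]; constructor <;> linarith)
    rw [unitInterval.volume_Icc, one_mul] at h2
    simpa using h2

theorem maintain_iter {r δ : ℝ} {i : ℕ} (hK : 1 ≤ K) (hi : 1 ≤ i) (hδ : 0 ≤ δ) (j : ℕ)
    (hr : r + j * δ ≤ 1 / 2) (y : Fin K → I) :
    ENNReal.ofReal δ ^ j * ind (Mid K r i) y ≤ (T π)^[j] (ind (Mid K (r + j * δ) (i + j))) y := by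
  induction j with
  | zero => simp
  | succ j ih =>
    have hr' : r + j * δ ≤ 1 / 2 := by push_cast at hr; nlinarith
    refine (le_trans ?_ (T_iter_mono π (f := fun y => ENNReal.ofReal δ *
      ind (Mid K (r + j * δ) (i + j)) y) (g := T π (ind (Mid K (r + (j + 1 : ℕ) * δ) (i + (j + 1)))))
      ?_ j y)).trans (le_of_eq ?_)
    · rw [T_iter_const_mul π (measurable_ind (measurableSet_Mid _ _))]
      dsimp only
      rw [pow_succ', mul_assoc]
      gcongr
      exact ih hr'
    · intro z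
      by_cases hz : z ∈ Mid K (r + j * δ) (i + j)
      · rw [ind_of_mem hz, mul_one]
        have e : r + (j + 1 : ℕ) * δ = (r + j * δ) + δ := by push_cast; ring
        rw [e]
        exact maintain π (i := i + j) hK (by omega) hδ (by push_cast at hr; linarith) hz
      · rw [ind_of_notMem hz, mul_zero]; exact bot_le
    · rw [← Function.iterate_succ_apply]

/-- The state forbids both a point slightly below and a point slightly above `1/2`. -/
def Bad (y : Fin K → I) : Prop :=
  (∃ t : I, 3 / 8 ≤ (t : ℝ) ∧ (t : ℝ) ≤ 1 / 2 ∧ Iso π (win y t)) ∧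
  (∃ t : I, 1 / 2 ≤ (t : ℝ) ∧ (t : ℝ) ≤ 5 / 8 ∧ Iso π (win y t))

theorem nxt_mem_LM (y : Fin K → I) {t : I} (h1 : 3 / 8 ≤ (t : ℝ)) (h2 : (t : ℝ) ≤ 5 / 8) :
    nxt y t ∈ Mid K (1 / 8) 1 := by
  intro a ha
  have h3 := a.2
  have h4 : K ≤ (a : ℕ) + 1 := ha
  rw [nxt_of_eq y t a (by omega), abs_le]
  constructor <;> linarith

theorem esc_of_not_bad {y : Fin K → I} (h : ¬ Bad π y) :
    ENNReal.ofReal (1 / 8) ≤ T π (ind (Mid K (1 / 8) 1)) y := by
  have h38 : (3 / 8 : ℝ) ∈ I := ⟨by norm_num, by norm_num⟩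
  have h12 : (1 / 2 : ℝ) ∈ I := ⟨by norm_num, by norm_num⟩
  have h58 : (5 / 8 : ℝ) ∈ I := ⟨by norm_num, by norm_num⟩
  unfold Bad at h
  rw [not_and_or] at h
  rcases h with h | h
  · push Not at h
    have h2 := T_ge π (f := ind (Mid K (1 / 8) 1)) (y := y) (Set.Icc ⟨3 / 8, h38⟩ ⟨1 / 2, h12⟩)
      measurableSet_Icc 1 (fun t ht => h t ht.1 ht.2) (fun t ht => by
        rw [ind_of_mem]
        exact nxt_mem_LM y ht.1 (le_trans ht.2 (by norm_num)))
    rw [unitInterval.volume_Icc, one_mul] at h2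
    refine le_trans (le_of_eq ?_) h2
    congr 1; norm_num
  · push Not at h
    have h2 := T_ge π (f := ind (Mid K (1 / 8) 1)) (y := y) (Set.Icc ⟨1 / 2, h12⟩ ⟨5 / 8, h58⟩)
      measurableSet_Icc 1 (fun t ht => h t ht.1 ht.2) (fun t ht => by
        rw [ind_of_mem]
        exact nxt_mem_LM y (le_trans (by norm_num) ht.1) ht.2)
    rw [unitInterval.volume_Icc, one_mul] at h2
    refine le_trans (le_of_eq ?_) h2
    congr 1; norm_num

/-- increasing, then a minimum -/
def Spec1 : Prop := (∀ a b : Fin K, a < b → π a.castSucc < π b.castSucc) ∧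
  ∀ a : Fin K, π (Fin.last K) < π a.castSucc

/-- decreasing, then a maximum -/
def Spec2 : Prop := (∀ a b : Fin K, a < b → π b.castSucc < π a.castSucc) ∧
  ∀ a : Fin K, π a.castSucc < π (Fin.last K)

theorem key_bad (hK : 2 ≤ K) {y : Fin K → I} {t : I} (h1 : Bad π y) (h2 : ¬ Iso π (win y t))
    (h3 : Bad π (nxt y t)) : Spec1 π ∨ Spec2 π := by
  obtain ⟨⟨t1, ht1, ht1', hI1⟩, ⟨t2, ht2, ht2', hI2⟩⟩ := h1
  obtain ⟨⟨s1, hs1, hs1', hJ1⟩, ⟨s2, hs2, hs2', hJ2⟩⟩ := h3
  rw [iso_win_iff] at hI1 hI2 hJ1 hJ2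
  -- sides
  have hlow : ∀ a : Fin K, π a.castSucc < π (Fin.last K) → (y a : ℝ) < 1 / 2 := by
    intro a ha
    have : y a < t1 := (hI1.2.1 a).mpr ha
    have h' : (y a : ℝ) < t1 := this
    linarith
  have hhigh : ∀ a : Fin K, π (Fin.last K) < π a.castSucc → 1 / 2 < (y a : ℝ) := by
    intro a ha
    have : t2 < y a := (hI2.2.2 a).mpr ha
    have h' : (t2 : ℝ) < y a := this
    linarith
  have hlow' : ∀ a : Fin K, π a.castSucc < π (Fin.last K) → (nxt y t a : ℝ) < 1 / 2 := by
    intro a ha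
    have : nxt y t a < s1 := (hJ1.2.1 a).mpr ha
    have h' : (nxt y t a : ℝ) < s1 := this
    linarith
  have hhigh' : ∀ a : Fin K, π (Fin.last K) < π a.castSucc → 1 / 2 < (nxt y t a : ℝ) := by
    intro a ha
    have : s2 < nxt y t a := (hJ2.2.2 a).mpr ha
    have h' : (s2 : ℝ) < nxt y t a := this
    linarith
  have hne : ∀ a : Fin K, π a.castSucc ≠ π (Fin.last K) := fun a h =>
    absurd (π.injective h) (Fin.castSucc_lt_last a).ne
  -- the side is constant
  have hside : ∀ (a : ℕ) (ha : a + 1 < K),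
      (π (⟨a, by omega⟩ : Fin K).castSucc < π (Fin.last K) ↔
        π (⟨a + 1, ha⟩ : Fin K).castSucc < π (Fin.last K)) := by
    intro a ha
    constructor
    · intro h
      rcases lt_or_gt_of_ne (hne ⟨a + 1, ha⟩) with h4 | h4
      · exact h4
      · have h5 := hlow' ⟨a, by omega⟩ h
        rw [nxt_of_lt y t ⟨a, by omega⟩ ha] at h5
        have h6 := hhigh ⟨a + 1, ha⟩ h4
        exact absurd h5 (not_lt.mpr h6.le)
    · intro h
      rcases lt_or_gt_of_ne (hne ⟨a, by omega⟩) with h4 | h4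
      · exact h4
      · have h5 := hhigh' ⟨a, by omega⟩ h4
        rw [nxt_of_lt y t ⟨a, by omega⟩ ha] at h5
        have h6 := hlow ⟨a + 1, ha⟩ h
        exact absurd h5 (not_lt.mpr h6.le)
  have hside' : ∀ (a : ℕ) (ha : a < K),
      (π (⟨0, by omega⟩ : Fin K).castSucc < π (Fin.last K) ↔
        π (⟨a, ha⟩ : Fin K).castSucc < π (Fin.last K)) := by
    intro a
    induction a with
    | zero => intro _; exact Iff.rfl
    | succ a ih =>
      intro ha
      exact (ih (by omega)).trans (hside a ha)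
  -- monotonicity propagates
  have hmono : ∀ (a : ℕ) (ha : a + 2 < K),
      (π (⟨a, by omega⟩ : Fin K).castSucc < π (⟨a + 1, by omega⟩ : Fin K).castSucc ↔
        π (⟨a + 1, by omega⟩ : Fin K).castSucc < π (⟨a + 2, ha⟩ : Fin K).castSucc) := by
    intro a ha
    rw [← hJ1.1, nxt_of_lt y t ⟨a, by omega⟩ (by simp only; omega),
      nxt_of_lt y t ⟨a + 1, by omega⟩ (by simp only; omega)]
    exact hI1.1 ⟨a + 1, by omega⟩ ⟨a + 2, ha⟩
  have hmono' : ∀ (a : ℕ) (ha : a + 1 < K),
      (π (⟨0, by omega⟩ : Fin K).castSucc < π (⟨1, by omega⟩ : Fin K).castSucc ↔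
        π (⟨a, by omega⟩ : Fin K).castSucc < π (⟨a + 1, ha⟩ : Fin K).castSucc) := by
    intro a
    induction a with
    | zero => intro _; exact Iff.rfl
    | succ a ih =>
      intro ha
      exact (ih (by omega)).trans (hmono a ha)
  have hne2 : ∀ (a b : Fin K), a ≠ b → π a.castSucc ≠ π b.castSucc := fun a b h h' =>
    h (Fin.castSucc_injective K (π.injective h'))
  by_cases hinc : π (⟨0, by omega⟩ : Fin K).castSucc < π (⟨1, by omega⟩ : Fin K).castSucc
  · -- increasing
    have hI : ∀ a b : Fin K, a < b → π a.castSucc < π b.castSucc := by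
      have : ∀ (a : Fin K) (b : ℕ) (hb : b < K), (a : ℕ) < b → π a.castSucc < π (⟨b, hb⟩ : Fin K).castSucc := by
        intro a b hb hab
        induction b, hab using Nat.le_induction with
        | base =>
          exact (hmono' a hb).mp hinc
        | succ b _ ih =>
          exact (ih (by omega)).trans ((hmono' b hb).mp hinc)
      intro a b hab
      exact this a b b.2 hab
    by_cases hs : π (⟨0, by omega⟩ : Fin K).castSucc < π (Fin.last K)
    · exfalso
      apply h2
      have hall : ∀ a : Fin K, π a.castSucc < π (Fin.last K) := fun a => (hside' a a.2).mp hs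
      have hlt : y ⟨K - 1, by omega⟩ < t := by
        have h4 : nxt y t ⟨K - 2, by omega⟩ < nxt y t ⟨K - 1, by omega⟩ :=
          (hJ1.1 _ _).mpr (hI _ _ (by rw [Fin.lt_def]; simp only; omega))
        rw [nxt_of_lt y t ⟨K - 2, by omega⟩ (by simp only; omega),
          nxt_of_eq y t ⟨K - 1, by omega⟩ (by simp only; omega)] at h4
        have e : (⟨K - 2 + 1, by omega⟩ : Fin K) = ⟨K - 1, by omega⟩ := by ext; simp only; omega
        rw [e] at h4
        exact h4
      have hlt' : ∀ a : Fin K, y a < t := by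
        intro a
        rcases eq_or_lt_of_le (show a ≤ ⟨K - 1, by omega⟩ by rw [Fin.le_def]; simp only; omega) with h5 | h5
        · rw [h5]; exact hlt
        · exact lt_trans ((hI1.1 _ _).mpr (hI _ _ h5)) hlt
      rw [iso_win_iff]
      refine ⟨hI1.1, fun a => ⟨fun _ => hall a, fun _ => hlt' a⟩, fun a => ⟨fun h => ?_, fun h => ?_⟩⟩
      · exact absurd h (not_lt.mpr (hlt' a).le)
      · exact absurd h (not_lt.mpr (hall a).le)
    · left
      refine ⟨hI, fun a => ?_⟩
      rcases lt_or_gt_of_ne (hne a) with h4 | h4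
      · exact absurd ((hside' a a.2).mpr h4) hs
      · exact h4
  · -- decreasing
    have hD : ∀ a b : Fin K, a < b → π b.castSucc < π a.castSucc := by
      have : ∀ (a : Fin K) (b : ℕ) (hb : b < K), (a : ℕ) < b → π (⟨b, hb⟩ : Fin K).castSucc < π a.castSucc := by
        intro a b hb hab
        induction b, hab using Nat.le_induction with
        | base =>
          have h5 : ¬ (π a.castSucc < π (⟨a + 1, hb⟩ : Fin K).castSucc) := fun h =>
            hinc ((hmono' a hb).mpr h)
          exact lt_of_le_of_ne (not_lt.mp h5) (hne2 _ _ (by intro h; have := congrArg Fin.val h; simp at this))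
        | succ b _ ih =>
          have h5 : ¬ (π (⟨b, by omega⟩ : Fin K).castSucc < π (⟨b + 1, hb⟩ : Fin K).castSucc) := fun h =>
            hinc ((hmono' b hb).mpr h)
          have h6 := lt_of_le_of_ne (not_lt.mp h5) (hne2 _ _ (by intro h; have := congrArg Fin.val h; simp at this))
          exact h6.trans (ih (by omega))
      intro a b hab
      exact this a b b.2 hab
    by_cases hs : π (⟨0, by omega⟩ : Fin K).castSucc < π (Fin.last K)
    · right
      exact ⟨hD, fun a => (hside' a a.2).mp hs⟩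
    · exfalso
      apply h2
      have hall : ∀ a : Fin K, π (Fin.last K) < π a.castSucc := fun a => by
        rcases lt_or_gt_of_ne (hne a) with h4 | h4
        · exact absurd ((hside' a a.2).mpr h4) hs
        · exact h4
      have hlt : t < y ⟨K - 1, by omega⟩ := by
        have h4 : nxt y t ⟨K - 1, by omega⟩ < nxt y t ⟨K - 2, by omega⟩ :=
          (hJ1.1 _ _).mpr (hD _ _ (by rw [Fin.lt_def]; simp only; omega))
        rw [nxt_of_lt y t ⟨K - 2, by omega⟩ (by simp only; omega),
          nxt_of_eq y t ⟨K - 1, by omega⟩ (by simp only; omega)] at h4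
        have e : (⟨K - 2 + 1, by omega⟩ : Fin K) = ⟨K - 1, by omega⟩ := by ext; simp only; omega
        rw [e] at h4
        exact h4
      have hlt' : ∀ a : Fin K, t < y a := by
        intro a
        rcases eq_or_lt_of_le (show a ≤ ⟨K - 1, by omega⟩ by rw [Fin.le_def]; simp only; omega) with h5 | h5
        · rw [h5]; exact hlt
        · exact lt_trans hlt ((hI1.1 _ _).mpr (hD _ _ h5))
      rw [iso_win_iff]
      refine ⟨hI1.1, fun a => ⟨fun h => ?_, fun h => ?_⟩, fun a => ⟨fun _ => hall a, fun _ => hlt' a⟩⟩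
      · exact absurd h (not_lt.mpr (hlt' a).le)
      · exact absurd h (not_lt.mpr (hall a).le)

theorem const_mul_T_le {f : (Fin K → I) → ℝ≥0∞} {c : ℝ≥0∞} (y : Fin K → I)
    (h : ∀ t, ¬ Iso π (win y t) → c ≤ f (nxt y t)) :
    c * T π (fun _ => 1) y ≤ T π f y := by
  classical
  have h1 : c * T π (fun _ => 1) y = T π (fun _ => c * 1) y :=
    (congrFun (T_const_mul π measurable_const c) y).symm
  rw [h1]
  unfold T
  apply lintegral_mono
  intro t
  dsimp only
  split_ifs with h2
  · exact le_refl _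
  · rw [mul_one]; exact h t h2

/-- Upper bound for the transfer operator. -/
theorem T_le {f : (Fin K → I) → ℝ≥0∞} {y : Fin K → I} (A B : Set I) (hA : MeasurableSet A)
    (hB : MeasurableSet B) (c d : ℝ≥0∞)
    (h1 : ∀ t, ¬ Iso π (win y t) → (t ∈ A ∧ f (nxt y t) ≤ c) ∨ (t ∈ B ∧ f (nxt y t) ≤ d)) :
    T π f y ≤ c * volume A + d * volume B := by
  classical
  rw [← setLIntegral_const, ← setLIntegral_const, ← lintegral_indicator hA,
    ← lintegral_indicator hB, ← lintegral_add_left (measurable_const.indicator hA)]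
  unfold T
  apply lintegral_mono
  intro t
  dsimp only
  split_ifs with h2
  · exact bot_le
  · rcases h1 t h2 with ⟨h3, h4⟩ | ⟨h3, h4⟩
    · rw [Set.indicator_of_mem h3]
      exact h4.trans le_self_add
    · rw [Set.indicator_of_mem h3 (fun _ => d)]
      exact h4.trans le_add_self

/-- The special patterns `(K, K-1, …, 1, K+1)` (in one-line notation): computation. -/
theorem esc_spec2 (hK : 2 ≤ K) (hS : Spec2 π) {y : Fin K → I} (hB : Bad π y) :
    h π 2 y ≤ 8 * (T π)^[2] (ind (Mid K (1 / 8) 1)) y + 32 * (T π)^[3] (ind (Mid K (1 / 8) 1)) y := by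
  obtain ⟨hS1, hS2⟩ := hS
  -- iso is: strictly decreasing and `z 0 < t`
  have iso_dec : ∀ (z : Fin K → I) (t : I), Iso π (win z t) → ∀ a b : Fin K, a < b → z b < z a := by
    intro z t hz a b hab
    rw [iso_win_iff] at hz
    exact (hz.1 b a).mpr (hS1 a b hab)
  have iso_lt : ∀ (z : Fin K → I) (t : I), Iso π (win z t) → z ⟨0, by omega⟩ < t := by
    intro z t hz
    rw [iso_win_iff] at hz
    exact (hz.2.1 _).mpr (hS2 _)
  have iso_of : ∀ (z : Fin K → I) (t : I), (∀ a b : Fin K, a < b → z b < z a) →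
      z ⟨0, by omega⟩ < t → Iso π (win z t) := by
    intro z t h1 h2
    rw [iso_win_iff]
    have h3 : ∀ a : Fin K, z a < t := by
      intro a
      rcases eq_or_lt_of_le (show (⟨0, by omega⟩ : Fin K) ≤ a by rw [Fin.le_def]; simp) with h | h
      · rw [← h]; exact h2
      · exact lt_trans (h1 _ _ h) h2
    refine ⟨fun a b => ?_, fun a => ⟨fun _ => hS2 a, fun _ => h3 a⟩, fun a => ⟨fun h => ?_, fun h => ?_⟩⟩
    · rcases lt_trichotomy a b with h | h | h
      · exact ⟨fun h' => absurd h' (not_lt.mpr (h1 _ _ h).le),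
          fun h' => absurd h' (not_lt.mpr (hS1 _ _ h).le)⟩
      · subst h; simp
      · exact ⟨fun _ => hS1 _ _ h, fun _ => h1 _ _ h⟩
    · exact absurd h (not_lt.mpr (h3 a).le)
    · exact absurd h (not_lt.mpr (hS2 a).le)
  -- `y` is strictly decreasing
  have hy : ∀ a b : Fin K, a < b → y b < y a := by
    obtain ⟨⟨t1, _, _, hI⟩, _⟩ := hB
    exact iso_dec y t1 hI
  set y0 : I := y ⟨0, by omega⟩ with hy0
  set y1 : I := y ⟨1, by omega⟩ with hy1
  set yl : I := y ⟨K - 1, by omega⟩ with hyl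
  have hle : yl ≤ y1 := by
    rcases eq_or_lt_of_le (show (⟨1, by omega⟩ : Fin K) ≤ ⟨K - 1, by omega⟩ by
      rw [Fin.le_def]; simp only; omega) with h | h
    · rw [hyl, hy1, h]
    · exact (hy _ _ h).le
  have hle0 : yl ≤ y0 := by
    exact (hy ⟨0, by omega⟩ ⟨K - 1, by omega⟩ (by rw [Fin.lt_def]; simp only; omega)).le
  -- not decreasing implies not bad
  have not_bad : ∀ z : Fin K → I, z ⟨K - 2, by omega⟩ ≤ z ⟨K - 1, by omega⟩ → ¬ Bad π z := by
    rintro z hz ⟨⟨t1, _, _, hI⟩, _⟩
    exact absurd (iso_dec z t1 hI ⟨K - 2, by omega⟩ ⟨K - 1, by omega⟩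
      (by rw [Fin.lt_def]; simp only; omega)) (not_lt.mpr hz)
  -- upper bound
  have hup : h π 2 y ≤ 1 * volume (Set.Icc yl y0) + ENNReal.ofReal y1 * volume (Set.Iio yl) := by
    rw [show (2 : ℕ) = 1 + 1 from rfl, h_succ]
    apply T_le π _ _ measurableSet_Icc measurableSet_Iio
    intro t ht
    have ht0 : t ≤ y0 := by
      by_contra hcon
      exact ht (iso_of y t hy (not_le.mp hcon))
    rcases le_or_gt yl t with h1 | h1
    · left
      exact ⟨⟨h1, ht0⟩, h_le_one π 1 _⟩
    · right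
      refine ⟨h1, ?_⟩
      -- the next state is strictly decreasing with first entry `y1`
      have hdec : ∀ a b : Fin K, a < b → nxt y t b < nxt y t a := by
        intro a b hab
        have ha : (a : ℕ) + 1 < K := by have := b.2; rw [Fin.lt_def] at hab; omega
        rw [nxt_of_lt y t a ha]
        rcases Nat.lt_or_ge ((b : ℕ) + 1) K with hb | hb
        · rw [nxt_of_lt y t b hb]
          exact hy _ _ (by rw [Fin.lt_def] at hab ⊢; simp only; omega)
        · rw [nxt_of_eq y t b (by omega)]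
          refine lt_of_lt_of_le h1 ?_
          rcases eq_or_lt_of_le (show (⟨(a : ℕ) + 1, ha⟩ : Fin K) ≤ ⟨K - 1, by omega⟩ by
            rw [Fin.le_def]; simp only; omega) with h | h
          · rw [h]
          · exact (hy _ _ h).le
      have hfirst : nxt y t ⟨0, by omega⟩ = y1 := by
        rw [nxt_of_lt y t ⟨0, by omega⟩ (by simp only; omega)]
      have h2 : h π 1 (nxt y t) ≤ 1 * volume (Set.Iic y1) + 0 * volume (∅ : Set I) := by
        rw [show (1 : ℕ) = 0 + 1 from rfl, h_succ]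
        apply T_le π _ _ measurableSet_Iic MeasurableSet.empty
        intro s hs
        left
        refine ⟨?_, le_of_eq (h_zero π _)⟩
        by_contra hcon
        apply hs
        apply iso_of _ _ hdec
        rw [hfirst]
        exact not_le.mp hcon
      simpa using h2
  rw [unitInterval.volume_Icc, unitInterval.volume_Iio] at hup
  -- lower bounds
  have hlow2 : ENNReal.ofReal (1 / 8) * ENNReal.ofReal ((y0 : ℝ) - yl) ≤
      (T π)^[2] (ind (Mid K (1 / 8) 1)) y := by
    rw [Function.iterate_succ_apply', Function.iterate_one, ← unitInterval.volume_Icc]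
    apply T_ge π _ measurableSet_Icc
    · intro t ht hI
      exact absurd (iso_lt y t hI) (not_lt.mpr ht.2)
    · intro t ht
      apply esc_of_not_bad
      apply not_bad
      rw [nxt_of_lt y t ⟨K - 2, by omega⟩ (by simp only; omega),
        nxt_of_eq y t ⟨K - 1, by omega⟩ (by simp only; omega)]
      have e : (⟨K - 2 + 1, by omega⟩ : Fin K) = ⟨K - 1, by omega⟩ := by ext; simp only; omega
      rw [e]
      exact ht.1
  have hl2 : (yl : ℝ) / 2 ∈ I := ⟨by linarith [yl.2.1], by linarith [yl.2.2]⟩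
  have h12 : (y1 : ℝ) / 2 ∈ I := ⟨by linarith [y1.2.1], by linarith [y1.2.2]⟩
  have hlow3 : ENNReal.ofReal (1 / 8) * ENNReal.ofReal ((y1 : ℝ) - y1 / 2) *
      ENNReal.ofReal ((yl : ℝ) / 2 - (0 : I)) ≤ (T π)^[3] (ind (Mid K (1 / 8) 1)) y := by
    rw [Function.iterate_succ_apply', ← unitInterval.volume_Icc (0 : I) ⟨(yl : ℝ) / 2, hl2⟩]
    apply T_ge π _ measurableSet_Icc
    · intro t ht hI
      have h1 := iso_lt y t hI
      have h2 : (t : ℝ) ≤ yl / 2 := ht.2
      have h3 : (y0 : ℝ) < t := h1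
      have h4 : (yl : ℝ) ≤ y0 := hle0
      linarith [yl.2.1]
    · intro t ht
      have htl : (t : ℝ) ≤ yl / 2 := ht.2
      rw [Function.iterate_succ_apply', Function.iterate_one,
        ← unitInterval.volume_Icc ⟨(y1 : ℝ) / 2, h12⟩ y1]
      apply T_ge π _ measurableSet_Icc
      · intro s hs hI
        have h1 := iso_lt _ s hI
        rw [nxt_of_lt y t ⟨0, by omega⟩ (by simp only; omega)] at h1
        exact absurd h1 (not_lt.mpr hs.2)
      · intro s hs
        have hs1 : (y1 : ℝ) / 2 ≤ s := hs.1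
        apply esc_of_not_bad
        apply not_bad
        rw [nxt_of_lt (nxt y t) s ⟨K - 2, by omega⟩ (by simp only; omega),
          nxt_of_eq (nxt y t) s ⟨K - 1, by omega⟩ (by simp only; omega)]
        have e : (⟨K - 2 + 1, by omega⟩ : Fin K) = ⟨K - 1, by omega⟩ := by ext; simp only; omega
        rw [e, nxt_of_eq y t ⟨K - 1, by omega⟩ (by simp only; omega)]
        have h4 : (yl : ℝ) ≤ y1 := hle
        show (t : ℝ) ≤ s
        linarith
  -- combine
  have e1 : (1 : ℝ≥0∞) * ENNReal.ofReal ((y0 : ℝ) - yl) =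
      8 * (ENNReal.ofReal (1 / 8) * ENNReal.ofReal ((y0 : ℝ) - yl)) := by
    rw [← mul_assoc]
    congr 1
    rw [show (8 : ℝ≥0∞) = ENNReal.ofReal 8 by simp, ← ENNReal.ofReal_mul (by norm_num)]
    norm_num
  have e2 : ENNReal.ofReal (y1 : ℝ) * ENNReal.ofReal (yl : ℝ) =
      32 * (ENNReal.ofReal (1 / 8) * ENNReal.ofReal ((y1 : ℝ) - y1 / 2) *
      ENNReal.ofReal ((yl : ℝ) / 2 - (0 : I))) := by
    rw [show (32 : ℝ≥0∞) = ENNReal.ofReal 32 by simp, ← ENNReal.ofReal_mul y1.2.1,
      ← ENNReal.ofReal_mul (by norm_num), ← ENNReal.ofReal_mul, ← ENNReal.ofReal_mul (by norm_num)]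
    · congr 1
      simp only [Set.Icc.coe_zero]
      ring
    · have := y1.2.1
      have h5 : (0 : ℝ) ≤ (y1 : ℝ) - y1 / 2 := by linarith
      positivity
  rw [e1, e2] at hup
  exact hup.trans (add_le_add (by gcongr) (by gcongr))

/-- **Escape lemma.** -/
theorem escape (hK : 2 ≤ K) (hNS : ¬ Spec1 π) (y : Fin K → I) :
    h π 2 y ≤ 8 * (T π)^[1] (ind (Mid K (1 / 8) 1)) y + 8 * (T π)^[2] (ind (Mid K (1 / 8) 1)) y +
      32 * (T π)^[3] (ind (Mid K (1 / 8) 1)) y := by
  have e8 : (8 : ℝ≥0∞) * ENNReal.ofReal (1 / 8) = 1 := by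
    rw [show (8 : ℝ≥0∞) = ENNReal.ofReal 8 by simp, ← ENNReal.ofReal_mul (by norm_num)]
    norm_num
  by_cases hb : Bad π y
  · by_cases hall : ∀ t, ¬ Iso π (win y t) → ¬ Bad π (nxt y t)
    · have h1 : ENNReal.ofReal (1 / 8) * T π (fun _ => 1) y ≤
          (T π)^[2] (ind (Mid K (1 / 8) 1)) y := by
        rw [Function.iterate_succ_apply', Function.iterate_one]
        exact const_mul_T_le π y (fun t ht => esc_of_not_bad π (hall t ht))
      have h2 : h π 2 y ≤ h π 1 y := h_antitone π (by norm_num) y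
      have h3 : h π 1 y ≤ 8 * (T π)^[2] (ind (Mid K (1 / 8) 1)) y := by
        calc h π 1 y = 8 * (ENNReal.ofReal (1 / 8) * T π (fun _ => 1) y) := by
              rw [← mul_assoc, e8, one_mul]; rfl
          _ ≤ _ := by gcongr
      exact (h2.trans h3).trans (le_add_self.trans le_self_add)
    · push Not at hall
      obtain ⟨t, ht1, ht2⟩ := hall
      rcases key_bad π hK hb ht1 ht2 with h1 | h1
      · exact absurd h1 hNS
      · refine (esc_spec2 π hK h1 hb).trans ?_
        gcongr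
        exact le_add_self
  · have h1 := esc_of_not_bad π hb
    have h2 : h π 2 y ≤ 8 * (T π)^[1] (ind (Mid K (1 / 8) 1)) y := by
      calc h π 2 y ≤ 1 := h_le_one π 2 y
        _ = 8 * ENNReal.ofReal (1 / 8) := e8.symm
        _ ≤ _ := by rw [Function.iterate_one]; gcongr
    exact h2.trans (le_self_add.trans le_self_add)

/-- Escape to the middle in a fixed number of steps, with a uniform constant. -/
theorem escape_mid (hK : 2 ≤ K) (hNS : ¬ Spec1 π) :
    ∃ c : ℝ≥0∞, c ≠ 0 ∧ c ≠ ⊤ ∧ ∀ y, c * h π 2 y ≤ (T π)^[K + 3] (ind (Mid K (1 / 4) K)) y := by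
  set δ : ℝ := 1 / (8 * (K + 3)) with hδ
  have hKpos : (0 : ℝ) < 8 * (K + 3) := by positivity
  have hδpos : 0 < δ := by positivity
  have hδK : (K + 3 : ℝ) * δ = 1 / 8 := by rw [hδ]; field_simp
  set D := ENNReal.ofReal δ ^ (K + 3) with hD
  have hD0 : D ≠ 0 := by
    rw [hD]; exact pow_ne_zero _ (by simpa using hδpos)
  have hDt : D ≠ ⊤ := by
    rw [hD]; exact ENNReal.pow_ne_top ENNReal.ofReal_ne_top
  have hδ1 : ENNReal.ofReal δ ≤ 1 := by
    rw [← ENNReal.ofReal_one]
    apply ENNReal.ofReal_le_ofReal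
    have hK0 : (0:ℝ) ≤ K := Nat.cast_nonneg K
    nlinarith
  -- each of the three terms
  have key : ∀ r : ℕ, 1 ≤ r → r ≤ 3 → ∀ y, D * (T π)^[r] (ind (Mid K (1 / 8) 1)) y ≤
      (T π)^[K + 3] (ind (Mid K (1 / 4) K)) y := by
    intro r hr1 hr3 y
    obtain ⟨j, hj⟩ : ∃ j, K + 3 = r + j := ⟨K + 3 - r, by omega⟩
    rw [hj, Function.iterate_add_apply]
    have h1 : ∀ z, D * ind (Mid K (1 / 8) 1) z ≤ (T π)^[j] (ind (Mid K (1 / 4) K)) z := by
      intro z
      have hjK : (j : ℝ) ≤ K + 3 := by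
        have : j ≤ K + 3 := by omega
        exact_mod_cast this
      have hjδ : (j : ℝ) * δ ≤ 1 / 8 := by rw [← hδK]; gcongr
      have h2 := maintain_iter π (r := 1 / 8) (δ := δ) (i := 1) (by omega) le_rfl hδpos.le j
        (by linarith) z
      have h3 : D * ind (Mid K (1 / 8) 1) z ≤ ENNReal.ofReal δ ^ j * ind (Mid K (1 / 8) 1) z := by
        gcongr
        rw [hD]
        exact pow_le_pow_right_of_le_one' hδ1 (by omega)
      refine h3.trans (h2.trans (T_iter_mono π ?_ j z))
      apply ind_mono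
      intro w hw a _
      exact (hw a (by omega)).trans (by linarith)
    calc D * (T π)^[r] (ind (Mid K (1 / 8) 1)) y
        = (T π)^[r] (fun z => D * ind (Mid K (1 / 8) 1) z) y := by
          rw [T_iter_const_mul π (measurable_ind (measurableSet_Mid _ _))]
      _ ≤ _ := T_iter_mono π h1 r y
  refine ⟨D / 48, ?_, ?_, ?_⟩
  · exact (ENNReal.div_pos hD0 (by norm_num)).ne'
  · exact ENNReal.div_ne_top hDt (by norm_num)
  · intro y
    have h1 := escape π hK hNS y
    have k1 := key 1 le_rfl (by norm_num) y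
    have k2 := key 2 (by norm_num) (by norm_num) y
    have k3 := key 3 (by norm_num) (by norm_num) y
    set X := (T π)^[K + 3] (ind (Mid K (1 / 4) K)) y with hX
    have h2 : D * h π 2 y ≤ 48 * X := by
      calc D * h π 2 y ≤ D * (8 * (T π)^[1] (ind (Mid K (1 / 8) 1)) y +
            8 * (T π)^[2] (ind (Mid K (1 / 8) 1)) y +
            32 * (T π)^[3] (ind (Mid K (1 / 8) 1)) y) := by gcongr
        _ = 8 * (D * (T π)^[1] (ind (Mid K (1 / 8) 1)) y) +
            8 * (D * (T π)^[2] (ind (Mid K (1 / 8) 1)) y) +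
            32 * (D * (T π)^[3] (ind (Mid K (1 / 8) 1)) y) := by ring
        _ ≤ 8 * X + 8 * X + 32 * X := by gcongr
        _ = 48 * X := by ring
    rw [ENNReal.div_eq_inv_mul, mul_assoc]
    calc (48 : ℝ≥0∞)⁻¹ * (D * h π 2 y) ≤ (48 : ℝ≥0∞)⁻¹ * (48 * X) := by gcongr
      _ = X := by
        rw [← mul_assoc, ENNReal.inv_mul_cancel (by norm_num) (by norm_num), one_mul]

end lemmas

end Pool.Agent.Lib.H8.CP
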