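import Pool.Agent.Lib.H8.CP.Contract

/-!
# Words, permutations and volumes
-/

open MeasureTheory unitInterval
open scoped ENNReal

namespace Pool.Agent.Lib.H8.CP

variable {K : ℕ}

/-- `π` occurs in the word `x` (0-based) at the position `i`. -/
def OccAt {α : Type*} [LT α] {n : ℕ} (π : Equiv.Perm (Fin (K + 1))) (x : Fin n → α) (i : ℕ) : Prop :=
  ∃ h : i + (K + 1) ≤ n, ∀ a b : Fin (K + 1),
    x ⟨i + a, by omega⟩ < x ⟨i + b, by omega⟩ ↔ π a < π b

/-- The words of length `n` whose set of occurrences is `S`. -/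
def Q (π : Equiv.Perm (Fin (K + 1))) (S : Set ℕ) (n : ℕ) : Set (Fin n → I) :=
  {x | ∀ i, OccAt π x i ↔ i ∈ S}

/-- The last `K` letters. -/
def lastK {n : ℕ} (hn : K ≤ n) (x : Fin n → I) : Fin K → I := fun a => x ⟨n - K + a, by omega⟩

theorem measurable_lastK {n : ℕ} (hn : K ≤ n) : Measurable (lastK (K := K) hn) :=
  measurable_pi_lambda _ (fun _ => measurable_pi_apply _)

variable (π : Equiv.Perm (Fin (K + 1))) (S : Set ℕ)

theorem measurableSet_occAt {n : ℕ} (i : ℕ) : MeasurableSet {x : Fin n → I | OccAt π x i} := by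
  by_cases h : i + (K + 1) ≤ n
  · have : {x : Fin n → I | OccAt π x i} =
        (fun x : Fin n → I => fun a : Fin (K + 1) => x ⟨i + a, by omega⟩) ⁻¹' {x | Iso π x} := by
      ext x
      simp only [OccAt, Set.mem_ofPred_eq, Set.mem_preimage, Iso]
      constructor
      · rintro ⟨_, h2⟩; exact h2
      · intro h2; exact ⟨h, h2⟩
    rw [this]
    exact (measurable_pi_lambda _ (fun _ => measurable_pi_apply _)) (measurableSet_iso π)
  · have : {x : Fin n → I | OccAt π x i} = ∅ := by
      ext x
      simp only [OccAt, Set.mem_ofPred_eq, Set.mem_empty_iff_false, iff_false]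
      rintro ⟨h2, _⟩
      exact h h2
    rw [this]
    exact MeasurableSet.empty

theorem measurableSet_Q (n : ℕ) : MeasurableSet (Q π S n) := by
  have : Q π S n = ⋂ i, {x | OccAt π x i ↔ i ∈ S} := by ext x; simp [Q]
  rw [this]
  refine MeasurableSet.iInter fun i => ?_
  by_cases h : i ∈ S
  · simp only [h, iff_true]; exact measurableSet_occAt π i
  · simp only [h, iff_false]; exact (measurableSet_occAt π i).compl

/-- The functional `Φ_n`. -/
noncomputable def Phi {n : ℕ} (hn : K ≤ n) (f : (Fin K → I) → ℝ≥0∞) : ℝ≥0∞ :=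
  ∫⁻ x in Q π S n, f (lastK hn x)

theorem occAt_snoc_lt {n : ℕ} (x : Fin n → I) (t : I) {i : ℕ} (hi : i + (K + 1) ≤ n) :
    OccAt π (Fin.snoc (α := fun _ => I) x t : Fin (n + 1) → I) i ↔ OccAt π x i := by
  unfold OccAt
  have e : ∀ a : Fin (K + 1), (Fin.snoc (α := fun _ => I) x t : Fin (n + 1) → I) ⟨i + a, by omega⟩ =
      x ⟨i + a, by omega⟩ := by
    intro a
    have h1 : (⟨i + a, by omega⟩ : Fin (n + 1)) = (⟨i + a, by omega⟩ : Fin n).castSucc := by
      ext; simp
    rw [h1, Fin.snoc_castSucc (α := fun _ => I)]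
  constructor
  · rintro ⟨_, h2⟩
    refine ⟨hi, fun a b => ?_⟩
    rw [← e a, ← e b]; exact h2 a b
  · rintro ⟨_, h2⟩
    refine ⟨by omega, fun a b => ?_⟩
    rw [e a, e b]; exact h2 a b

theorem snoc_window {n : ℕ} (hn : K ≤ n) (x : Fin n → I) (t : I) (a : Fin (K + 1)) :
    (Fin.snoc (α := fun _ => I) x t : Fin (n + 1) → I) ⟨n - K + a, by omega⟩ =
      win (lastK hn x) t a := by
  refine Fin.lastCases ?_ (fun b => ?_) a
  · rw [win_last]
    have h1 : (⟨n - K + (Fin.last K : Fin (K + 1)), by simp; omega⟩ : Fin (n + 1)) = Fin.last n := by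
      ext; simp; omega
    rw [h1, Fin.snoc_last (α := fun _ => I)]
  · rw [win_castSucc]
    have h1 : (⟨n - K + (b.castSucc : Fin (K + 1)), by simp; omega⟩ : Fin (n + 1)) =
        (⟨n - K + b, by omega⟩ : Fin n).castSucc := by ext; simp
    rw [h1, Fin.snoc_castSucc (α := fun _ => I)]
    rfl

theorem occAt_snoc_last {n : ℕ} (hn : K ≤ n) (x : Fin n → I) (t : I) :
    OccAt π (Fin.snoc (α := fun _ => I) x t : Fin (n + 1) → I) (n - K) ↔
      Iso π (win (lastK hn x) t) := by
  unfold OccAt Iso
  constructor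
  · rintro ⟨_, h2⟩ a b
    rw [← snoc_window hn x t a, ← snoc_window hn x t b]
    exact h2 a b
  · intro h2
    refine ⟨by omega, fun a b => ?_⟩
    rw [snoc_window hn x t a, snoc_window hn x t b]
    exact h2 a b

theorem mem_Q_snoc {n : ℕ} (hn : K ≤ n) (hS : n - K ∉ S) (x : Fin n → I) (t : I) :
    (Fin.snoc (α := fun _ => I) x t : Fin (n + 1) → I) ∈ Q π S (n + 1) ↔
      x ∈ Q π S n ∧ ¬ Iso π (win (lastK hn x) t) := by
  constructor
  · intro hQ
    refine ⟨fun i => ?_, fun hI => ?_⟩
    · rw [← hQ i]
      rcases Nat.lt_or_ge n (i + (K + 1)) with h | h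
      · constructor
        · rintro ⟨h2, _⟩; omega
        · intro h2
          have h3 : i + (K + 1) ≤ n + 1 := h2.choose
          have h4 : i = n - K := by omega
          exfalso
          apply hS
          rw [← h4, ← hQ i]
          exact h2
      · exact (occAt_snoc_lt π x t h).symm
    · exact hS ((hQ (n - K)).mp ((occAt_snoc_last π hn x t).mpr hI))
  · rintro ⟨hQ, hI⟩ i
    rw [← hQ i]
    rcases Nat.lt_or_ge n (i + (K + 1)) with h | h
    · constructor
      · intro h2
        have h3 : i + (K + 1) ≤ n + 1 := h2.choose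
        have h4 : i = n - K := by omega
        exfalso
        apply hI
        rw [← occAt_snoc_last π hn x t, ← h4]
        exact h2
      · rintro ⟨h2, _⟩; omega
    · exact occAt_snoc_lt π x t h

theorem lastK_snoc {n : ℕ} (hn : K ≤ n) (x : Fin n → I) (t : I) :
    lastK (K := K) (by omega : K ≤ n + 1) (Fin.snoc (α := fun _ => I) x t : Fin (n + 1) → I) =
      nxt (lastK hn x) t := by
  funext a
  unfold nxt
  rw [← snoc_window hn x t a.succ]
  unfold lastK
  congr 1
  ext
  simp
  omega

theorem Phi_succ {n : ℕ} (hn : K ≤ n) (hS : n - K ∉ S) {f : (Fin K → I) → ℝ≥0∞}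
    (hf : Measurable f) :
    Phi π S (by omega : K ≤ n + 1) f = Phi π S hn (T π f) := by
  classical
  unfold Phi
  have hF : Measurable ((Q π S (n + 1)).indicator
      (fun x => f (lastK (by omega : K ≤ n + 1) x))) :=
    (hf.comp (measurable_lastK _)).indicator (measurableSet_Q π S (n + 1))
  rw [← lintegral_indicator (measurableSet_Q π S (n + 1)), lintegral_snoc hF,
    ← lintegral_indicator (measurableSet_Q π S n)]
  apply lintegral_congr
  intro x
  by_cases hx : x ∈ Q π S n
  · rw [Set.indicator_of_mem hx]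
    unfold T
    apply lintegral_congr
    intro t
    by_cases hI : Iso π (win (lastK hn x) t)
    · rw [if_pos hI, Set.indicator_of_notMem]
      rw [mem_Q_snoc π S hn hS]
      exact fun h => h.2 hI
    · rw [if_neg hI, Set.indicator_of_mem, lastK_snoc hn]
      rw [mem_Q_snoc π S hn hS]
      exact ⟨hx, hI⟩
  · rw [Set.indicator_of_notMem hx]
    apply lintegral_eq_zero_of_ae_eq_zero
    filter_upwards with t
    rw [Set.indicator_of_notMem]
    · rfl
    · rw [mem_Q_snoc π S hn hS]
      exact fun h => hx h.1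

theorem Phi_iter {n : ℕ} (hn : K ≤ n) (hS : ∀ i ∈ S, i < n - K) {f : (Fin K → I) → ℝ≥0∞}
    (hf : Measurable f) (j : ℕ) :
    Phi π S (by omega : K ≤ n + j) f = Phi π S hn ((T π)^[j] f) := by
  induction j generalizing f with
  | zero => rfl
  | succ j ih =>
    have h1 : n + j - K ∉ S := fun h => by have := hS _ h; omega
    have h2 := Phi_succ π S (n := n + j) (by omega) h1 hf
    have h3 := ih (measurable_T π hf)
    rw [Function.iterate_succ_apply]
    rw [← h3, ← h2]

theorem volume_Q_eq {n : ℕ} (hn : K ≤ n) : volume (Q π S n) = Phi π S hn (fun _ => 1) := by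
  unfold Phi
  simp

theorem volume_Q_add {n : ℕ} (hn : K ≤ n) (hS : ∀ i ∈ S, i < n - K) (j : ℕ) :
    volume (Q π S (n + j)) = Phi π S hn (h π j) := by
  rw [volume_Q_eq π S (by omega : K ≤ n + j), Phi_iter π S hn hS measurable_const j]
  rfl

/-! ### Volumes of the order simplices -/

section simplex

variable {n : ℕ}

theorem volume_simplex (w : Equiv.Perm (Fin n)) :
    volume {x : Fin n → I | Iso w x} = volume {x : Fin n → I | Iso 1 x} := by
  have h1 := volume_measurePreserving_piCongrLeft (fun _ : Fin n => I) w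
  rw [← h1.measure_preimage (measurableSet_iso 1).nullMeasurableSet]
  congr 1
  ext x
  have e : ∀ i, MeasurableEquiv.piCongrLeft (fun _ : Fin n => I) w x (w i) = x i := by
    intro i
    exact MeasurableEquiv.piCongrLeft_apply_apply _ _ _
  simp only [Set.mem_ofPred_eq, Set.mem_preimage, Iso]
  constructor
  · intro h2 a b
    obtain ⟨a, rfl⟩ := w.surjective a
    obtain ⟨b, rfl⟩ := w.surjective b
    rw [e, e]
    exact h2 a b
  · intro h2 a b
    have := h2 (w a) (w b)
    rw [e, e] at this
    exact this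

theorem iso_unique {w w' : Equiv.Perm (Fin n)} {x : Fin n → I} (h : Iso w x) (h' : Iso w' x) :
    w = w' := by
  have h1 : ∀ a b, w a < w b ↔ w' a < w' b := fun a b => (h a b).symm.trans (h' a b)
  have h2 : StrictMono (fun i => w' (w.symm i)) := by
    intro a b hab
    have := (h1 (w.symm a) (w.symm b)).mp (by simpa using hab)
    exact this
  have h3 : (fun i => w' (w.symm i)) = id := by
    have h4 := Subsingleton.elim (StrictMono.orderIsoOfSurjective _ h2
      (w'.surjective.comp w.symm.surjective)) (OrderIso.refl (Fin n))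
    funext i
    have := congrArg (fun e : Fin n ≃o Fin n => e i) h4
    exact this
  ext i
  have := congrFun h3 (w i)
  simp only [Equiv.symm_apply_apply, id] at this
  rw [this]

theorem exists_iso {x : Fin n → I} (hx : Function.Injective x) : ∃ w : Equiv.Perm (Fin n), Iso w x := by
  refine ⟨(Tuple.sort x).symm, fun a b => ?_⟩
  have h1 : StrictMono (x ∘ Tuple.sort x) :=
    (Tuple.monotone_sort x).strictMono_of_injective (hx.comp (Tuple.sort x).injective)
  have := h1.lt_iff_lt (a := (Tuple.sort x).symm a) (b := (Tuple.sort x).symm b)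
  simpa using this

theorem ae_ne {i j : Fin n} (hij : i ≠ j) : ∀ᵐ x : Fin n → I, x i ≠ x j := by
  obtain ⟨m, rfl⟩ : ∃ m, n = m + 1 := ⟨n - 1, by have := i.2; omega⟩
  obtain ⟨j', rfl⟩ := Fin.exists_succAbove_eq hij.symm
  have hm : MeasurableSet {x : Fin (m + 1) → I | x i = x (i.succAbove j')} :=
    measurableSet_eq_fun (measurable_pi_apply _) (measurable_pi_apply _)
  rw [ae_iff]
  simp only [ne_eq, not_not]
  have h1 := (volume_preserving_piFinSuccAbove (fun _ : Fin (m + 1) => I) i).symm
  rw [← h1.measure_preimage hm.nullMeasurableSet, Measure.volume_eq_prod,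
    Measure.prod_apply_symm ((MeasurableEquiv.measurable _) hm)]
  rw [lintegral_eq_zero_iff']
  · filter_upwards with y
    simp only [Set.preimage_ofPred_eq, Pi.zero_apply]
    have : {t : I | (MeasurableEquiv.piFinSuccAbove (fun _ : Fin (m + 1) => I) i).symm (t, y) i =
        (MeasurableEquiv.piFinSuccAbove (fun _ : Fin (m + 1) => I) i).symm (t, y) (i.succAbove j')} ⊆
        {y j'} := by
      intro t ht
      simp only [Set.mem_ofPred_eq] at ht
      have e1 : (MeasurableEquiv.piFinSuccAbove (fun _ : Fin (m + 1) => I) i).symm (t, y) i = t :=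
        Fin.insertNth_apply_same (α := fun _ => I) i t y
      have e2 : (MeasurableEquiv.piFinSuccAbove (fun _ : Fin (m + 1) => I) i).symm (t, y)
          (i.succAbove j') = y j' := Fin.insertNth_apply_succAbove (α := fun _ => I) i t y j'
      rw [e1, e2] at ht
      exact ht
    exact measure_mono_null this (by simp)
  · exact (measurable_measure_prodMk_right ((MeasurableEquiv.measurable _) hm)).aemeasurable

theorem ae_injective : ∀ᵐ x : Fin n → I, Function.Injective x := by
  have h1 : ∀ᵐ x : Fin n → I, ∀ i j : Fin n, i ≠ j → x i ≠ x j := by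
    rw [ae_all_iff]; intro i
    rw [ae_all_iff]; intro j
    by_cases hij : i = j
    · filter_upwards with x h; exact absurd hij h
    · filter_upwards [ae_ne hij] with x hx _ using hx
  filter_upwards [h1] with x hx i j hij
  by_contra h
  exact hx i j h hij

theorem volume_biUnion_simplex (W : Finset (Equiv.Perm (Fin n))) :
    volume (⋃ w ∈ W, {x : Fin n → I | Iso w x}) = W.card * volume {x : Fin n → I | Iso 1 x} := by
  rw [measure_biUnion_finset]
  · rw [Finset.sum_congr rfl (fun w _ => volume_simplex w)]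
    simp
  · intro w _ w' _ hne
    rw [Function.onFun, Set.disjoint_left]
    intro x hx hx'
    exact hne (iso_unique hx hx')
  · intro w _
    exact measurableSet_iso w

theorem volume_simplex_one : (n.factorial : ℝ≥0∞) * volume {x : Fin n → I | Iso 1 x} = 1 := by
  classical
  have h1 := volume_biUnion_simplex (n := n) Finset.univ
  rw [Finset.card_univ, Fintype.card_perm, Fintype.card_fin] at h1
  rw [← h1]
  have h2 : volume (⋃ w ∈ (Finset.univ : Finset (Equiv.Perm (Fin n))), {x : Fin n → I | Iso w x}) =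
      volume (Set.univ : Set (Fin n → I)) := by
    apply measure_congr
    filter_upwards [ae_injective (n := n)] with x hx
    obtain ⟨w, hw⟩ := exists_iso hx
    apply propext
    constructor
    · intro _; trivial
    · intro _
      show x ∈ ⋃ w ∈ (Finset.univ : Finset (Equiv.Perm (Fin n))), {x : Fin n → I | Iso w x}
      simp only [Finset.mem_univ, Set.iUnion_true, Set.mem_iUnion]
      exact ⟨w, hw⟩
  rw [h2, measure_univ]

theorem occAt_iff_of_iso {w : Equiv.Perm (Fin n)} {x : Fin n → I} (h : Iso w x) (i : ℕ) :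
    OccAt π x i ↔ OccAt π (fun a => w a) i := by
  unfold OccAt
  constructor
  · rintro ⟨h1, h2⟩
    exact ⟨h1, fun a b => by rw [← h2 a b, h]⟩
  · rintro ⟨h1, h2⟩
    exact ⟨h1, fun a b => by rw [← h2 a b, h]⟩

open Classical in
/-- The number of permutations of `[n]` with set of (0-based) occurrences `S`. -/
noncomputable def cnt (n : ℕ) : ℕ :=
  (Finset.univ.filter (fun w : Equiv.Perm (Fin n) => ∀ i, OccAt π (fun a => w a) i ↔ i ∈ S)).card

theorem volume_Q_card (n : ℕ) : (n.factorial : ℝ≥0∞) * volume (Q π S n) = cnt π S n := by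
  classical
  set W := Finset.univ.filter (fun w : Equiv.Perm (Fin n) => ∀ i, OccAt π (fun a => w a) i ↔ i ∈ S)
    with hW
  have h2 : volume (Q π S n) = volume (⋃ w ∈ W, {x : Fin n → I | Iso w x}) := by
    apply measure_congr
    filter_upwards [ae_injective (n := n)] with x hx
    obtain ⟨w, hw⟩ := exists_iso hx
    apply propext
    constructor
    · intro hQ
      have hQ' : ∀ i, OccAt π x i ↔ i ∈ S := hQ
      show x ∈ ⋃ w ∈ W, {x : Fin n → I | Iso w x}
      simp only [Set.mem_iUnion]
      refine ⟨w, ?_, hw⟩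
      simp only [hW, Finset.mem_filter, Finset.mem_univ, true_and]
      intro i
      rw [← hQ' i, occAt_iff_of_iso π hw]
    · intro hU
      have hU' : x ∈ ⋃ w ∈ W, {x : Fin n → I | Iso w x} := hU
      simp only [Set.mem_iUnion] at hU'
      obtain ⟨w', hw', hx'⟩ := hU'
      simp only [hW, Finset.mem_filter, Finset.mem_univ, true_and] at hw'
      show ∀ i, OccAt π x i ↔ i ∈ S
      intro i
      rw [← hw' i]
      exact occAt_iff_of_iso π hx' i
  rw [h2, volume_biUnion_simplex, mul_left_comm, volume_simplex_one, mul_one]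
  rfl

theorem cnt_eq (n : ℕ) : (cnt π S n : ℝ) = n.factorial * (volume (Q π S n)).toReal := by
  have h1 := congrArg ENNReal.toReal (volume_Q_card π S n)
  rw [ENNReal.toReal_mul] at h1
  simpa using h1.symm

end simplex

end Pool.Agent.Lib.H8.CP
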